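import Pool.Agent.Odp3.Defs
import Pool.Agent.ODP.Vol

/-!
# Lattice points of a dilated simplex
-/

open scoped ContDiff Topology ENNReal NNReal WithZero
open Set MeasureTheory Filter MvPolynomial Pool.Agent.ODP

namespace Pool.Agent.Odp3

private theorem count_pow_step {x c : ℝ} (hx : 0 ≤ x) (hc : 0 ≤ c) (n : ℕ) :
    x ^ (n + 1) - (max (x - c) 0) ^ (n + 1) ≤ (n + 1) * c * x ^ n := by
  rcases le_total c x with h | h
  · rw [max_eq_left (by linarith)]
    have h0 : 0 ≤ x - c := by linarith
    induction n with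
    | zero => simp
    | succ n ih =>
      have h1 : x ^ (n + 1 + 1) - (x - c) ^ (n + 1 + 1) =
          x * (x ^ (n + 1) - (x - c) ^ (n + 1)) + c * (x - c) ^ (n + 1) := by ring
      have h2 : c * (x - c) ^ (n + 1) ≤ c * x ^ (n + 1) :=
        mul_le_mul_of_nonneg_left (pow_le_pow_left₀ h0 (by linarith) _) hc
      have h3 := mul_le_mul_of_nonneg_left ih hx
      rw [h1]
      push_cast
      have h4 : (n + 1 + 1 : ℝ) * c * x ^ (n + 1) =
          x * ((n + 1) * c * x ^ n) + c * x ^ (n + 1) := by ring
      rw [h4]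
      linarith
  · rw [max_eq_right (by linarith)]
    have h1 : x ^ (n + 1) = x * x ^ n := by ring
    have h2 : x * x ^ n ≤ c * x ^ n := mul_le_mul_of_nonneg_right h (pow_nonneg hx _)
    have h3 : 0 ≤ (n : ℝ) * (c * x ^ n) := by positivity
    have h4 : (n + 1 : ℝ) * c * x ^ n = n * (c * x ^ n) + c * x ^ n := by ring
    rw [h1, h4]
    simp only [ne_eq, Nat.add_eq_zero_iff, one_ne_zero, and_false, not_false_eq_true, zero_pow,
      sub_zero]
    linarith

/-- lower bound for the number of lattice points of a simplex -/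
theorem count_lower {n : ℕ} : ∀ (c : Fin n → ℕ), (∀ i, 0 < c i) → ∀ m : ℕ, 0 < m →
    (m : ℝ) ^ n ≤ ((simplexFinset c m).card : ℝ) * n.factorial * ∏ i, (c i : ℝ) := by
  induction n with
  | zero =>
    intro c hc m hm
    have h : 1 ≤ (simplexFinset c m).card := by
      rw [Nat.one_le_iff_ne_zero, Finset.card_ne_zero]
      exact ⟨fun _ => 0, (mem_simplexFinset hc).2 (by simpa using hm)⟩
    simpa using (by exact_mod_cast h : (1 : ℝ) ≤ ((simplexFinset c m).card : ℝ))
  | succ n ih =>
    intro c hc m hm
    set c' : Fin n → ℕ := fun i => c i.succ with hc'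
    have hc'pos : ∀ i, 0 < c' i := fun i => hc i.succ
    set T : Finset ℕ := (Finset.range m).filter fun b => c 0 * b < m with hT
    have hmaps : ∀ β ∈ simplexFinset c m, β 0 ∈ T := by
      intro β hβ
      rw [mem_simplexFinset hc] at hβ
      have h1 : c 0 * β 0 < m := lt_of_le_of_lt (Finset.single_le_sum
        (f := fun i => c i * β i) (fun _ _ => Nat.zero_le _) (Finset.mem_univ 0)) hβ
      rw [hT, Finset.mem_filter, Finset.mem_range]
      refine ⟨lt_of_le_of_lt ?_ h1, h1⟩
      calc β 0 = 1 * β 0 := (one_mul _).symm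
        _ ≤ c 0 * β 0 := Nat.mul_le_mul_right _ (hc 0)
    have h1 : (simplexFinset c m).card =
        ∑ b ∈ T, ((simplexFinset c m).filter fun β => β 0 = b).card :=
      Finset.card_eq_sum_card_fiberwise hmaps
    have h2 : ∀ b ∈ T, (simplexFinset c' (m - c 0 * b)).card ≤
        ((simplexFinset c m).filter fun β => β 0 = b).card := by
      intro b hb
      have hb' := (Finset.mem_filter.1 hb).2
      apply Finset.card_le_card_of_injOn
        (fun (β : Fin n → ℕ) => (Fin.cons b β : Fin (n + 1) → ℕ))
      · intro β hβ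
        rw [Finset.mem_coe, mem_simplexFinset hc'pos] at hβ
        rw [Finset.mem_coe, Finset.mem_filter, mem_simplexFinset hc, Fin.sum_univ_succ]
        refine ⟨?_, by simp⟩
        simp only [Fin.cons_zero, Fin.cons_succ]
        change ∑ i : Fin n, c i.succ * β i < m - c 0 * b at hβ
        omega
      · intro β _ β' _ h
        funext i
        have := congrFun h i.succ
        simpa using this
    set P : ℝ := ∏ i, (c' i : ℝ) with hP
    have hPpos : 0 < P := Finset.prod_pos fun i _ => by exact_mod_cast hc'pos i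
    have hc0 : (0 : ℝ) < c 0 := by exact_mod_cast hc 0
    rw [Fin.prod_univ_succ]
    change (m : ℝ) ^ (n + 1) ≤
      ((simplexFinset c m).card : ℝ) * (n + 1).factorial * ((c 0 : ℝ) * P)
    have h3 : ∑ b ∈ T, ((n + 1 : ℝ) * c 0 * ((m : ℝ) - c 0 * b) ^ n) ≤
        ((simplexFinset c m).card : ℝ) * (n + 1).factorial * ((c 0 : ℝ) * P) := by
      rw [h1]
      push_cast
      rw [Finset.sum_mul, Finset.sum_mul]
      refine Finset.sum_le_sum fun b hb => ?_
      have hb' := (Finset.mem_filter.1 hb).2
      have h4 := ih c' hc'pos (m - c 0 * b) (by omega)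
      rw [Nat.cast_sub hb'.le] at h4
      push_cast at h4
      have h5 : ((simplexFinset c' (m - c 0 * b)).card : ℝ) ≤
          (((simplexFinset c m).filter fun β => β 0 = b).card : ℝ) := by exact_mod_cast h2 b hb
      have h6 : ((m : ℝ) - c 0 * b) ^ n ≤
          (((simplexFinset c m).filter fun β => β 0 = b).card : ℝ) * n.factorial * P := by
        refine le_trans h4 ?_
        gcongr
      have h7 : ((n + 1).factorial : ℝ) = (n + 1) * n.factorial := by
        rw [Nat.factorial_succ]
        push_cast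
        ring
      rw [h7]
      have h9 : (0 : ℝ) ≤ (n + 1 : ℝ) * c 0 := by positivity
      calc ((n + 1 : ℝ) * c 0) * ((m : ℝ) - c 0 * b) ^ n
          ≤ ((n + 1 : ℝ) * c 0) * ((((simplexFinset c m).filter fun β => β 0 = b).card : ℝ) *
            n.factorial * P) := mul_le_mul_of_nonneg_left h6 h9
        _ = (((simplexFinset c m).filter fun β => β 0 = b).card : ℝ) * ((n + 1) * n.factorial) *
            ((c 0 : ℝ) * P) := by ring
    -- telescoping
    have htel : ∀ N : ℕ, (∀ b < N, c 0 * b < m) →
        (m : ℝ) ^ (n + 1) - (max ((m : ℝ) - c 0 * N) 0) ^ (n + 1) ≤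
        ∑ b ∈ Finset.range N, ((n + 1 : ℝ) * c 0 * ((m : ℝ) - c 0 * b) ^ n) := by
      intro N
      induction N with
      | zero =>
        intro _
        simp
      | succ N ihN =>
        intro hN
        rw [Finset.sum_range_succ]
        have h4 := ihN fun b hb => hN b (by omega)
        have h5 : (c 0 : ℝ) * N < m := by exact_mod_cast hN N (by omega)
        have h6 := count_pow_step (x := (m : ℝ) - c 0 * N) (by linarith) hc0.le n
        rw [max_eq_left (by linarith)] at h4
        have h8 : (m : ℝ) - c 0 * (N + 1 : ℕ) = (m : ℝ) - c 0 * N - c 0 := by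
          push_cast
          ring
        rw [h8]
        linarith
    -- `T` is an initial segment
    have e : ∀ b : ℕ, b < (m + c 0 - 1) / c 0 ↔ c 0 * b < m := by
      intro b
      rw [Nat.lt_iff_add_one_le, Nat.le_div_iff_mul_le (hc 0)]
      have : (b + 1) * c 0 = c 0 * b + c 0 := by ring
      rw [this]
      have := hc 0
      omega
    have hTN : T = Finset.range ((m + c 0 - 1) / c 0) := by
      ext b
      rw [hT, Finset.mem_filter, Finset.mem_range, Finset.mem_range, e]
      refine ⟨fun h => h.2, fun h => ⟨lt_of_le_of_lt ?_ h, h⟩⟩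
      calc b = 1 * b := (one_mul _).symm
        _ ≤ c 0 * b := Nat.mul_le_mul_right _ (hc 0)
    have h4 := htel ((m + c 0 - 1) / c 0) fun b hb => (e b).1 hb
    have h5 : (m : ℝ) ≤ c 0 * ((m + c 0 - 1) / c 0 : ℕ) := by
      have : m ≤ c 0 * ((m + c 0 - 1) / c 0) := by
        by_contra hcon
        exact lt_irrefl _ ((e _).2 (not_le.1 hcon))
      exact_mod_cast this
    rw [max_eq_right (by linarith)] at h4
    simp only [ne_eq, Nat.add_eq_zero_iff, one_ne_zero, and_false, not_false_eq_true, zero_pow,
      sub_zero] at h4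
    rw [hTN] at h3
    linarith

theorem tendsto_card {n : ℕ} (a : Fin n → ℕ) (ha : ∀ j, 1 ≤ a j) :
    Tendsto (fun N : ℕ => ((n.factorial * {m : Fin n → ℕ | ∑ j, a j * m j < N}.ncard : ℕ) : ℝ) /
      (N : ℝ) ^ n) atTop (𝓝 (∏ j, (a j : ℝ))⁻¹) := by
  have hpos : ∀ j, 0 < a j := ha
  set P : ℝ := ∏ j, (a j : ℝ) with hP
  set S : ℝ := ∑ j, (a j : ℝ) with hS
  have hPpos : 0 < P := Finset.prod_pos fun i _ => by exact_mod_cast hpos i
  have hcard : ∀ N : ℕ, {m : Fin n → ℕ | ∑ j, a j * m j < N}.ncard = (simplexFinset a N).card := by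
    intro N
    rw [← card_simplex_eq a hpos N]
    rfl
  have hlim : Tendsto (fun N : ℕ => P⁻¹ * (1 + S / N) ^ n) atTop (𝓝 P⁻¹) := by
    have h1 : Tendsto (fun m : ℕ => S / (m : ℝ)) atTop (𝓝 0) :=
      tendsto_const_div_atTop_nhds_zero_nat S
    have h2 := ((h1.const_add 1).pow n).const_mul P⁻¹
    simpa using h2
  refine tendsto_of_tendsto_of_tendsto_of_le_of_le' tendsto_const_nhds hlim ?_ ?_
  · filter_upwards [eventually_gt_atTop 0] with N hN
    have hN0 : (0 : ℝ) < N := by exact_mod_cast hN
    have h := count_lower a hpos N hN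
    rw [hcard, le_div_iff₀ (by positivity), inv_mul_le_iff₀ hPpos]
    push_cast
    calc (N : ℝ) ^ n ≤ ((simplexFinset a N).card : ℝ) * n.factorial * P := h
      _ = P * (n.factorial * (simplexFinset a N).card) := by ring
  · filter_upwards [eventually_gt_atTop 0] with N hN
    have hN0 : (0 : ℝ) < N := by exact_mod_cast hN
    have h := card_simplexFinset a hpos N
    rw [hcard, div_le_iff₀ (by positivity), mul_assoc, ← mul_pow, le_inv_mul_iff₀ hPpos]
    push_cast
    have h2 : (1 + S / N) * (N : ℝ) = N + S := by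
      field_simp
    rw [h2]
    calc P * (n.factorial * ((simplexFinset a N).card : ℝ)) =
        ((simplexFinset a N).card : ℝ) * n.factorial * P := by ring
      _ ≤ _ := h

end Pool.Agent.Odp3
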