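import Pool.Agent.Odp3.Vol.FujitaDim
import Pool.Agent.Odp3.Vol.Count
import Pool.Agent.Odp3.Alg.Cf

/-!
# The degree filtration of a germ (for `Vol/Fujita`)
-/

open MvPolynomial Pool.Agent.ODP
open scoped Classical

namespace Pool.Agent.Odp3.Fujita

variable {n d : ℕ} {B : Type} [CommRing B] [Algebra ℂ B] {G : Germ n d B} {w₀ : Fin n → ℂ}

/-! ### coordinates -/

theorem vd_fsum (c : Fin d → MvPolynomial (Fin n) ℂ) (j : Fin d) :
    G.cf (∑ i, aeval G.y (c i) * G.e i) j = G.D * c j := by
  rw [G.cf_sum]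
  simp only [G.cf_aeval_mul, G.cf_e]
  rw [Finset.sum_eq_single j]
  · rw [if_pos rfl, mul_comm]
  · intro i _ hi
    rw [if_neg (Ne.symm hi), mul_zero]
  · intro h
    exact absurd (Finset.mem_univ j) h

theorem vd_smul (c : ℂ) (b : B) (i : Fin d) : G.cf (c • b) i = c • G.cf b i := by
  have h : c • b = aeval G.y (C c : MvPolynomial (Fin n) ℂ) * b := by
    rw [aeval_C, Algebra.smul_def]
  rw [h, G.cf_aeval_mul, C_mul']

/-! ### a nonzero multiple in the base -/

theorem exists_multiple [IsDomain B] {b : B} (hb : b ≠ 0) :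
    ∃ (b' : B) (p : MvPolynomial (Fin n) ℂ), p ≠ 0 ∧ b * b' = aeval G.y p := by
  let _ : Algebra (MvPolynomial (Fin n) ℂ) B :=
    (aeval G.y : MvPolynomial (Fin n) ℂ →ₐ[ℂ] B).toRingHom.toAlgebra
  have hfin : Module.Finite (MvPolynomial (Fin n) ℂ) B := G.fin
  have hint : IsIntegral (MvPolynomial (Fin n) ℂ) b := Algebra.IsIntegral.isIntegral b
  obtain ⟨p, hp, c, hc⟩ := hint.isAlgebraic.exists_nonzero_dvd (mem_nonZeroDivisors_of_ne_zero hb)
  exact ⟨c, p, hp, hc.symm⟩

/-! ### the filtration -/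

/-- the elements with coordinates of total degree at most `D` -/
def VD (G : Germ n d B) (D : ℕ) : Submodule ℂ B where
  carrier := {b | ∀ i, G.cf b i ∈ restrictTotalDegree (Fin n) ℂ D}
  add_mem' := by
    intro a b ha hb i
    rw [G.cf_add]
    exact Submodule.add_mem _ (ha i) (hb i)
  zero_mem' := by
    intro i
    rw [G.cf_zero]
    exact Submodule.zero_mem _
  smul_mem' := by
    intro c b hb i
    rw [vd_smul]
    exact Submodule.smul_mem _ c (hb i)

theorem mem_VD {D : ℕ} {b : B} : b ∈ VD G D ↔ ∀ i, (G.cf b i).totalDegree ≤ D := by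
  refine forall_congr' fun i => ?_
  exact mem_restrictTotalDegree _ _ _

theorem VD_mono {D D' : ℕ} (h : D ≤ D') : VD G D ≤ VD G D' := by
  intro b hb
  rw [mem_VD] at *
  exact fun i => (hb i).trans h

/-- the coordinates -/
noncomputable def vdMap (G : Germ n d B) (D : ℕ) :
    VD G D →ₗ[ℂ] (Fin d → restrictTotalDegree (Fin n) ℂ D) where
  toFun b i := ⟨G.cf b i, b.2 i⟩
  map_add' := by
    intro a b
    funext i
    apply Subtype.ext
    change G.cf ((a : B) + b) i = G.cf a i + G.cf b i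
    rw [G.cf_add]
    rfl
  map_smul' := by
    intro c b
    funext i
    apply Subtype.ext
    change G.cf (c • (b : B)) i = c • G.cf b i
    rw [vd_smul]

theorem vdMap_injective [IsDomain B] (D : ℕ) : Function.Injective (vdMap G D) := by
  rw [← LinearMap.ker_eq_bot, LinearMap.ker_eq_bot']
  intro b hb
  apply Subtype.ext
  apply G.cf_inj
  intro i
  have h := congrFun hb i
  exact congrArg Subtype.val h

/-- the number of monomials of degree at most `D` -/
noncomputable def nmon (n D : ℕ) : ℕ := {m : Fin n → ℕ | ∑ j, 1 * m j < D + 1}.ncard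

theorem finrank_restrict (D : ℕ) :
    Module.finrank ℂ (restrictTotalDegree (Fin n) ℂ D) = nmon n D := by
  have h1 := Module.finrank_eq_nat_card_basis
    (basisRestrictSupport (σ := Fin n) ℂ { m | (m.sum fun _ e => e) ≤ D })
  unfold restrictTotalDegree
  rw [h1, nmon, ← Nat.card_coe_set_eq]
  apply Nat.card_congr
  refine (Finsupp.equivFunOnFinite (α := Fin n) (M := ℕ)).subtypeEquiv ?_
  intro m
  have h2 : (m.sum fun _ e => e) = ∑ j, m j := Finsupp.sum_fintype _ _ fun _ => rfl
  simp only [Set.mem_ofPred_eq, one_mul, Finsupp.equivFunOnFinite_apply]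
  rw [h2]
  omega

instance [IsDomain B] (G : Germ n d B) (D : ℕ) : FiniteDimensional ℂ (VD G D) :=
  FiniteDimensional.of_injective (vdMap G D) (vdMap_injective D)

theorem finrank_VD_le [IsDomain B] (D : ℕ) :
    Module.finrank ℂ (VD G D) ≤ d * nmon n D := by
  have h := LinearMap.finrank_le_finrank_of_injective (vdMap_injective (G := G) D)
  rw [Module.finrank_pi_fintype] at h
  simp only [finrank_restrict] at h
  rwa [Finset.sum_const, Finset.card_univ, Fintype.card_fin, smul_eq_mul] at h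

theorem le_finrank_VD [IsDomain B] {D : ℕ} (h : G.D.totalDegree ≤ D) :
    d * nmon n (D - G.D.totalDegree) ≤ Module.finrank ℂ (VD G D) := by
  let f : (Fin d → restrictTotalDegree (Fin n) ℂ (D - G.D.totalDegree)) →ₗ[ℂ] VD G D :=
    { toFun := fun c => ⟨∑ i, aeval G.y (c i : MvPolynomial (Fin n) ℂ) * G.e i, by
        intro i
        rw [vd_fsum, mem_restrictTotalDegree]
        have h1 := (mem_restrictTotalDegree _ _ _).1 (c i).2
        have h2 := totalDegree_mul G.D (c i : MvPolynomial (Fin n) ℂ)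
        omega⟩
      map_add' := by
        intro a b
        apply Subtype.ext
        change ∑ i, aeval G.y (((a + b) i : _) : MvPolynomial (Fin n) ℂ) * G.e i =
          ∑ i, aeval G.y (a i : MvPolynomial (Fin n) ℂ) * G.e i +
          ∑ i, aeval G.y (b i : MvPolynomial (Fin n) ℂ) * G.e i
        rw [← Finset.sum_add_distrib]
        refine Finset.sum_congr rfl fun i _ => ?_
        rw [Pi.add_apply, Submodule.coe_add, map_add, add_mul]
      map_smul' := by
        intro t a
        apply Subtype.ext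
        change ∑ i, aeval G.y (((t • a) i : _) : MvPolynomial (Fin n) ℂ) * G.e i =
          t • ∑ i, aeval G.y (a i : MvPolynomial (Fin n) ℂ) * G.e i
        rw [Finset.smul_sum]
        refine Finset.sum_congr rfl fun i _ => ?_
        rw [Pi.smul_apply, Submodule.coe_smul, map_smul, smul_mul_assoc] }
  have hf : Function.Injective f := by
    rw [← LinearMap.ker_eq_bot, LinearMap.ker_eq_bot']
    intro c hc
    funext i
    apply Subtype.ext
    have h1 : G.cf (∑ i, aeval G.y (c i : MvPolynomial (Fin n) ℂ) * G.e i) i = 0 := by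
      have h2 : (∑ i, aeval G.y (c i : MvPolynomial (Fin n) ℂ) * G.e i) = 0 :=
        congrArg Subtype.val hc
      rw [h2, G.cf_zero]
    rw [vd_fsum] at h1
    exact (mul_eq_zero.1 h1).resolve_left G.D_ne
  have h1 := LinearMap.finrank_le_finrank_of_injective hf
  rw [Module.finrank_pi_fintype] at h1
  simp only [finrank_restrict] at h1
  rwa [Finset.sum_const, Finset.card_univ, Fintype.card_fin, smul_eq_mul] at h1

theorem totalDegree_sum_le {ι : Type*} (s : Finset ι) (f : ι → MvPolynomial (Fin n) ℂ) (D : ℕ)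
    (h : ∀ i ∈ s, (f i).totalDegree ≤ D) : (∑ i ∈ s, f i).totalDegree ≤ D := by
  rw [← mem_restrictTotalDegree]
  exact Submodule.sum_mem _ fun i hi => (mem_restrictTotalDegree _ _ _).2 (h i hi)

theorem VD_mul {c : ℕ} (hc : ∀ i j l, (G.cf (G.e i * G.e j) l).totalDegree ≤ c) {D D' : ℕ}
    {b b' : B} (hb : b ∈ VD G D) (hb' : b' ∈ VD G D') : b * b' ∈ VD G (D + D' + c) := by
  rw [mem_VD] at *
  intro l
  have h1 : aeval G.y (G.D * G.D) * (b * b') =
      ∑ i, ∑ j, aeval G.y (G.cf b i * G.cf b' j) * (G.e i * G.e j) := by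
    have h2 : aeval G.y (G.D * G.D) * (b * b') =
        (aeval G.y G.D * b) * (aeval G.y G.D * b') := by
      rw [map_mul]
      ring
    rw [h2, G.cf_spec b, G.cf_spec b', Finset.sum_mul_sum]
    refine Finset.sum_congr rfl fun i _ => Finset.sum_congr rfl fun j _ => ?_
    rw [map_mul]
    ring
  have h2 : (G.D * G.D) * G.cf (b * b') l =
      ∑ i, ∑ j, G.cf b i * G.cf b' j * G.cf (G.e i * G.e j) l := by
    rw [← G.cf_aeval_mul, h1, G.cf_sum]
    refine Finset.sum_congr rfl fun i _ => ?_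
    rw [G.cf_sum]
    refine Finset.sum_congr rfl fun j _ => ?_
    rw [G.cf_aeval_mul]
  have h3 : ((G.D * G.D) * G.cf (b * b') l).totalDegree ≤ D + D' + c := by
    rw [h2]
    apply totalDegree_sum_le
    intro i _
    apply totalDegree_sum_le
    intro j _
    refine (totalDegree_mul _ _).trans ?_
    exact add_le_add ((totalDegree_mul _ _).trans (add_le_add (hb i) (hb' j))) (hc i j l)
  rcases eq_or_ne (G.cf (b * b') l) 0 with h4 | h4
  · rw [h4, totalDegree_zero]
    exact Nat.zero_le _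
  · rw [totalDegree_mul_of_isDomain (mul_ne_zero G.D_ne G.D_ne) h4] at h3
    omega

theorem aeval_mem_VD {c : ℕ} (hc : ∀ i, (G.cf (1 : B) i).totalDegree ≤ c)
    {p : MvPolynomial (Fin n) ℂ} {D : ℕ} (hp : p.totalDegree ≤ D) :
    aeval G.y p ∈ VD G (D + c) := by
  rw [mem_VD]
  intro i
  rw [← mul_one (aeval G.y p), G.cf_aeval_mul]
  exact (totalDegree_mul _ _).trans (add_le_add hp (hc i))

/-! ### surjectivity onto the quotients -/

theorem pow_map_le {I : Ideal B} {N : ℕ}
    (hI : ∀ m : Fin n → ℕ, N ≤ ∑ j, m j → ∏ j, G.y j ^ m j ∈ I) (k : ℕ) :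
    (idealOfVars (Fin n) ℂ ^ (N * k)).map (aeval G.y : MvPolynomial (Fin n) ℂ →ₐ[ℂ] B).toRingHom ≤
      I ^ k := by
  rw [pow_mul, Ideal.map_pow]
  apply Ideal.pow_right_mono
  rw [pow_idealOfVars_eq_span, Ideal.map_span, Ideal.span_le]
  rintro _ ⟨_, ⟨m, hm, rfl⟩, rfl⟩
  have h1 : (aeval G.y : MvPolynomial (Fin n) ℂ →ₐ[ℂ] B).toRingHom (monomial m (1 : ℂ)) =
      ∏ j, G.y j ^ m j := by
    change aeval G.y (monomial m (1 : ℂ)) = _
    rw [aeval_monomial, map_one, one_mul, Finsupp.prod_fintype _ _ fun _ => pow_zero _]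
  rw [h1]
  apply hI
  have h2 : m.degree = ∑ j, m j := Finsupp.degree_eq_sum m
  have h3 : m.degree = N := hm
  omega

theorem exists_trunc (p : MvPolynomial (Fin n) ℂ) (D : ℕ) :
    ∃ q : MvPolynomial (Fin n) ℂ, q.totalDegree ≤ D ∧ p - q ∈ idealOfVars (Fin n) ℂ ^ (D + 1) := by
  refine ⟨∑ m ∈ p.support.filter fun m => m.degree ≤ D, monomial m (coeff m p), ?_, ?_⟩
  · apply totalDegree_sum_le
    intro m hm
    rw [Finset.mem_filter] at hm
    refine (totalDegree_monomial_le _ _).trans ?_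
    have h2 : (m.sum fun _ => id) = m.degree := by
      rw [Finsupp.degree_eq_sum]
      exact Finsupp.sum_fintype _ _ fun _ => rfl
    rw [h2]
    exact hm.2
  · rw [mem_pow_idealOfVars_iff']
    intro m hm
    rw [coeff_sub, coeff_sum]
    by_cases hmp : m ∈ p.support
    · rw [Finset.sum_eq_single m]
      · simp
      · intro m' _ hne
        rw [coeff_monomial, if_neg hne]
      · intro hnot
        exact absurd (Finset.mem_filter.2 ⟨hmp, by omega⟩) hnot
    · rw [notMem_support_iff.1 hmp, Finset.sum_eq_zero, sub_zero]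
      intro m' hm'
      rw [Finset.mem_filter] at hm'
      rw [coeff_monomial, if_neg]
      rintro rfl
      exact hmp hm'.1

/-- a bound for the degrees of the structure constants and of the generators -/
theorem exists_const (G : Germ n d B) : ∃ c : ℕ, 1 ≤ c ∧ G.D.totalDegree ≤ c ∧
    (∀ i j l, (G.cf (G.e i * G.e j) l).totalDegree ≤ c) ∧
    (∀ i, (G.cf (1 : B) i).totalDegree ≤ c) ∧
    ∀ (b : B) (T : ℕ), ∃ v ∈ VD G (T + c), b - v ∈ (idealOfVars (Fin n) ℂ ^ (T + 1)).map
      (aeval G.y : MvPolynomial (Fin n) ℂ →ₐ[ℂ] B).toRingHom := by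
  obtain ⟨k, E, hE⟩ := G.exists_gen
  set c₁ := ∑ i, ∑ j, ∑ l, (G.cf (G.e i * G.e j) l).totalDegree with hc₁
  set c₂ := ∑ i, (G.cf (1 : B) i).totalDegree with hc₂
  set c₃ := ∑ i, ∑ l, (G.cf (E i) l).totalDegree with hc₃
  have hE3 : ∀ i l, (G.cf (E i) l).totalDegree ≤ c₃ := by
    intro i l
    have h1 : (G.cf (E i) l).totalDegree ≤ ∑ l, (G.cf (E i) l).totalDegree :=
      Finset.single_le_sum (f := fun l => (G.cf (E i) l).totalDegree)
        (fun _ _ => Nat.zero_le _) (Finset.mem_univ l)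
    have h2 : ∑ l, (G.cf (E i) l).totalDegree ≤ ∑ i, ∑ l, (G.cf (E i) l).totalDegree :=
      Finset.single_le_sum (f := fun i => ∑ l, (G.cf (E i) l).totalDegree)
        (fun _ _ => Nat.zero_le _) (Finset.mem_univ i)
    omega
  refine ⟨1 + G.D.totalDegree + c₁ + c₂ + c₃, by omega, by omega, fun i j l => ?_, fun i => ?_,
    fun b T => ?_⟩
  · have h1 : (G.cf (G.e i * G.e j) l).totalDegree ≤
        ∑ l, (G.cf (G.e i * G.e j) l).totalDegree :=
      Finset.single_le_sum (f := fun l => (G.cf (G.e i * G.e j) l).totalDegree)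
        (fun _ _ => Nat.zero_le _) (Finset.mem_univ l)
    have h2 : ∑ l, (G.cf (G.e i * G.e j) l).totalDegree ≤
        ∑ j, ∑ l, (G.cf (G.e i * G.e j) l).totalDegree :=
      Finset.single_le_sum (f := fun j => ∑ l, (G.cf (G.e i * G.e j) l).totalDegree)
        (fun _ _ => Nat.zero_le _) (Finset.mem_univ j)
    have h3 : ∑ j, ∑ l, (G.cf (G.e i * G.e j) l).totalDegree ≤
        ∑ i, ∑ j, ∑ l, (G.cf (G.e i * G.e j) l).totalDegree :=
      Finset.single_le_sum (f := fun i => ∑ j, ∑ l, (G.cf (G.e i * G.e j) l).totalDegree)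
        (fun _ _ => Nat.zero_le _) (Finset.mem_univ i)
    omega
  · have h1 : (G.cf (1 : B) i).totalDegree ≤ ∑ i, (G.cf (1 : B) i).totalDegree :=
      Finset.single_le_sum (f := fun i => (G.cf (1 : B) i).totalDegree)
        (fun _ _ => Nat.zero_le _) (Finset.mem_univ i)
    omega
  · obtain ⟨a, ha⟩ := hE b
    choose q hq hq' using fun i => exists_trunc (a i) T
    refine ⟨∑ i, aeval G.y (q i) * E i, ?_, ?_⟩
    · rw [mem_VD]
      intro l
      rw [G.cf_sum]
      apply totalDegree_sum_le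
      intro i _
      rw [G.cf_aeval_mul]
      refine (totalDegree_mul _ _).trans ?_
      have h1 := hq i
      have h2 := hE3 i l
      omega
    · have h1 : b - ∑ i, aeval G.y (q i) * E i = ∑ i, aeval G.y (a i - q i) * E i := by
        conv_lhs => rw [ha]
        rw [← Finset.sum_sub_distrib]
        refine Finset.sum_congr rfl fun i _ => ?_
        rw [map_sub]
        ring
      rw [h1]
      apply Ideal.sum_mem
      intro i _
      apply Ideal.mul_mem_right
      exact Ideal.mem_map_of_mem _ (hq' i)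

/-- The colength of an ideal in terms of a finite dimensional space which maps onto the
quotient. -/
theorem colength_eq {I : Ideal B} (V : Submodule ℂ B) [FiniteDimensional ℂ V]
    (hV : ∀ b : B, ∃ v ∈ V, b - v ∈ I) :
    colength ℂ I + Module.finrank ℂ (V ⊓ I.restrictScalars ℂ : Submodule ℂ B) =
      Module.finrank ℂ V := by
  set g : V →ₗ[ℂ] (B ⧸ I) := (Ideal.Quotient.mkₐ ℂ I).toLinearMap.comp V.subtype with hg
  have hsurj : Function.Surjective g := by
    intro z
    obtain ⟨b, rfl⟩ := Ideal.Quotient.mk_surjective z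
    obtain ⟨v, hv, hbv⟩ := hV b
    refine ⟨⟨v, hv⟩, ?_⟩
    change Ideal.Quotient.mk I v = Ideal.Quotient.mk I b
    rw [eq_comm, Ideal.Quotient.eq]
    exact hbv
  have h1 := g.finrank_range_add_finrank_ker
  rw [LinearMap.range_eq_top.2 hsurj, finrank_top] at h1
  have h2 : Module.finrank ℂ (LinearMap.ker g) =
      Module.finrank ℂ (V ⊓ I.restrictScalars ℂ : Submodule ℂ B) := by
    have h3 : LinearMap.ker g = Submodule.comap V.subtype (V ⊓ I.restrictScalars ℂ) := by
      ext v
      rw [LinearMap.mem_ker, Submodule.mem_comap]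
      change Ideal.Quotient.mk I (v : B) = 0 ↔ _
      rw [Ideal.Quotient.eq_zero_iff_mem]
      constructor
      · exact fun h => ⟨v.2, h⟩
      · exact fun h => h.2
    rw [h3]
    exact (Submodule.comapSubtypeEquivOfLe inf_le_left).finrank_eq
  rw [h2] at h1
  exact h1

theorem tau_injective [IsDomain B] {τ : B →ₐ[ℂ] MvPowerSeries (Fin n) ℂ}
    (hτ : ∀ p : MvPolynomial (Fin n) ℂ, τ (aeval (tt G w₀) p) = (p : MvPowerSeries (Fin n) ℂ)) :
    ∀ b, τ b = 0 → b = 0 := by
  intro b hb
  by_contra hne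
  obtain ⟨b', p, hp, h1⟩ := exists_multiple (G := G) hne
  have h2 : τ (aeval G.y p) = 0 := by rw [← h1, map_mul, hb, zero_mul]
  have h3 : aeval G.y p = aeval (tt G w₀) (sh w₀ p) := by rw [aeval_tt, sh'_sh]
  rw [h3, hτ] at h2
  have h4 : sh w₀ p = 0 := by
    have : ((sh w₀ p : MvPolynomial (Fin n) ℂ) : MvPowerSeries (Fin n) ℂ) =
        ((0 : MvPolynomial (Fin n) ℂ) : MvPowerSeries (Fin n) ℂ) := by
      rw [h2, MvPolynomial.coe_zero]
    exact MvPolynomial.coe_injective (Fin n) ℂ this
  apply hp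
  rw [← sh'_sh (w₀ := w₀) p, h4, map_zero]

end Pool.Agent.Odp3.Fujita
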