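import Pool.Agent.Odp3.Vol.FujitaDim
import Pool.Agent.Odp3.Vol.FujitaDeg
import Pool.Agent.Odp3.Vol.Count
import Pool.Agent.Odp3.Vol.FujitaSum

/-!
# The multiplicities of the members of a graded sequence of ideals approximate its volume
-/

open scoped ContDiff Topology ENNReal NNReal WithZero
open Set MeasureTheory Filter MvPolynomial Pool.Agent.ODP

namespace Pool.Agent.Odp3

namespace Fujita

open scoped Classical

variable {n d : ℕ} {B : Type} [CommRing B] [Algebra ℂ B] {G : Germ n d B} {w₀ : Fin n → ℂ}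

theorem nmon_tendsto (n a c : ℕ) (ha : 1 ≤ a) :
    Tendsto (fun k : ℕ => ((n.factorial * nmon n (a * k - c) : ℕ) : ℝ) / (k : ℝ) ^ n) atTop
      (𝓝 ((a : ℝ) ^ n)) := by
  have h1 := tendsto_card (n := n) (fun _ => 1) (fun _ => le_refl 1)
  simp only [Nat.cast_one, Finset.prod_const_one, inv_one] at h1
  have hg : Tendsto (fun k : ℕ => a * k - c + 1) atTop atTop := by
    apply tendsto_atTop_mono (f := fun k : ℕ => k - c)
    · intro k
      have : k ≤ a * k := Nat.le_mul_of_pos_left k ha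
      omega
    · exact tendsto_sub_atTop_nat c
  have h2 := h1.comp hg
  have h3 : Tendsto (fun k : ℕ => ((a * k - c + 1 : ℕ) : ℝ) / (k : ℝ)) atTop (𝓝 (a : ℝ)) := by
    have h4 : Tendsto (fun k : ℕ => (a : ℝ) + (1 - (c : ℝ)) / (k : ℝ)) atTop
        (𝓝 ((a : ℝ) + 0)) :=
      tendsto_const_nhds.add (tendsto_const_div_atTop_nhds_zero_nat _)
    rw [add_zero] at h4
    refine h4.congr' ?_
    filter_upwards [eventually_ge_atTop (c + 1)] with k hk
    have hk0 : (0 : ℝ) < k := by
      have : 0 < k := by omega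
      exact_mod_cast this
    have hle : c ≤ a * k := by
      have : k ≤ a * k := Nat.le_mul_of_pos_left k ha
      omega
    rw [Nat.cast_add, Nat.cast_sub hle]
    push_cast
    field_simp
    ring
  have h5 := h2.mul (h3.pow n)
  rw [one_mul] at h5
  refine h5.congr' ?_
  filter_upwards [eventually_ge_atTop 1] with k hk
  have hk0 : (0 : ℝ) < k := by exact_mod_cast hk
  simp only [Function.comp_apply]
  have hne : ((a * k - c + 1 : ℕ) : ℝ) ≠ 0 := by
    have : 0 < a * k - c + 1 := by omega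
    exact_mod_cast this.ne'
  rw [nmon, div_pow]
  field_simp

/-- the pieces of the graded algebra -/
noncomputable def WW (G : Germ n d B) (I : Ideal B) (α N c k : ℕ) : Submodule ℂ B :=
  VD G (α * N * k - c) ⊓ (I ^ k).restrictScalars ℂ

instance [IsDomain B] (I : Ideal B) (α N c k : ℕ) : FiniteDimensional ℂ (WW G I α N c k) :=
  Submodule.finiteDimensional_of_le (inf_le_left : _ ≤ VD G (α * N * k - c))

theorem inx_tt_pow {τ : B →ₐ[ℂ] MvPowerSeries (Fin n) ℂ}
    (hτ : ∀ p : MvPolynomial (Fin n) ℂ, τ (aeval (tt G w₀) p) = (p : MvPowerSeries (Fin n) ℂ))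
    (j : Fin n) (D : ℕ) : Inx τ (tt G w₀ j ^ D) (Finsupp.single j D) := by
  have h1 : τ (tt G w₀ j ^ D) = ((monomial (Finsupp.single j D) (1 : ℂ) :
      MvPolynomial (Fin n) ℂ) : MvPowerSeries (Fin n) ℂ) := by
    rw [← hτ, aeval_monomial, map_one, one_mul,
      Finsupp.prod_single_index (h := fun i k => tt G w₀ i ^ k) (pow_zero _)]
  unfold Inx
  rw [h1]
  apply le_antisymm
  · apply MvPowerSeries.lexOrder_le_of_coeff_ne_zero
    rw [coeff_coe, coeff_monomial, if_pos rfl]
    exact one_ne_zero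
  · rw [MvPowerSeries.le_lexOrder_iff]
    intro m hm
    rw [coeff_coe, coeff_monomial, if_neg]
    rintro rfl
    exact lt_irrefl _ hm

theorem WW_mul {I : Ideal B} {α N c : ℕ}
    (hc : ∀ i j l, (G.cf (G.e i * G.e j) l).totalDegree ≤ c) (hcα : c ≤ α * N) {k : ℕ}
    (hk : 1 ≤ k) {b b' : B} (hb : b ∈ WW G I α N c k) (hb' : b' ∈ WW G I α N c 1) :
    b * b' ∈ WW G I α N c (k + 1) := by
  refine ⟨?_, ?_⟩
  · have h1 := VD_mul hc hb.1 hb'.1
    refine VD_mono ?_ h1
    have h2 : c ≤ α * N * k := hcα.trans (Nat.le_mul_of_pos_right _ hk)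
    rw [mul_one, mul_add, mul_one]
    omega
  · have h1 : b * b' ∈ I ^ k * I ^ 1 := Ideal.mul_mem_mul hb.2 hb'.2
    rw [← pow_add] at h1
    exact h1

/-- the growth of the graded pieces -/
theorem growth [IsDomain B] (hn : 1 ≤ n) {τ : B →ₐ[ℂ] MvPowerSeries (Fin n) ℂ}
    (hτ : ∀ p : MvPolynomial (Fin n) ℂ, τ (aeval (tt G w₀) p) = (p : MvPowerSeries (Fin n) ℂ))
    {c : ℕ} (hc : ∀ i j l, (G.cf (G.e i * G.e j) l).totalDegree ≤ c)
    (hc1 : ∀ i, (G.cf (1 : B) i).totalDegree ≤ c)
    {I : Ideal B} {N : ℕ} (hN : 1 ≤ N) (hI : ∀ m : Fin n → ℕ, N ≤ ∑ j, m j → ∏ j, G.y j ^ m j ∈ I) :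
    ∃ M : ℕ, ∀ k : ℕ, (n : ℝ) / N < k →
      (Module.finrank ℂ (WW G I (2 * c + 2) N c 1) : ℝ) * ((k : ℝ) - n / N) ^ n ≤
        (1 + (n : ℝ) / N) ^ n * Module.finrank ℂ (WW G I (2 * c + 2) N c (k + M)) := by
  have hinj := tau_injective hτ
  set α := 2 * c + 2 with hα
  have hfin : ∀ k, (InSet τ (WW G I α N c k)).Finite := fun k => finite_inSet
  set i0 : Fin n := ⟨0, hn⟩ with hi0
  -- the coefficient function is injective
  set co : (Fin n →₀ ℕ) → (Fin n → ℕ) := fun m => ⇑m with hco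
  have hcoinj : Function.Injective co := DFunLike.coe_injective
  set A : Finset (Fin n → ℕ) := (hfin 1).toFinset.image co with hA
  have hAcard : A.card = (hfin 1).toFinset.card := Finset.card_image_of_injective _ hcoinj
  have hAcard' : Module.finrank ℂ (WW G I α N c 1) ≤ A.card := by
    rw [hAcard]
    exact finrank_le_card hinj _ fun m hm => by rwa [Set.Finite.mem_toFinset]
  -- the basic element
  have hy0 : τ (G.y i0 ^ N) ≠ 0 := by
    intro h0
    have h1 := hinj _ h0
    have h2 : G.y i0 = 0 := pow_eq_zero_iff (by omega) |>.1 h1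
    have h3 : τ (aeval (tt G w₀) (sh w₀ (X i0))) = 0 := by
      rw [aeval_tt, sh'_sh, aeval_X, h2, map_zero]
    rw [hτ] at h3
    have h4 := congrArg (MvPowerSeries.coeff (Finsupp.single i0 1)) h3
    rw [coeff_coe, map_zero] at h4
    unfold sh at h4
    rw [aeval_X, coeff_add, coeff_X, if_pos rfl, coeff_C, if_neg] at h4
    · norm_num at h4
    · intro h5
      have h6 := DFunLike.congr_fun h5 i0
      rw [Finsupp.single_eq_same] at h6
      simp at h6
  obtain ⟨m0, hm0⟩ := exists_inx hy0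
  have hmem : ∀ (j : Fin n) (D : ℕ), D ≤ N →
      G.y i0 ^ N * tt G w₀ j ^ D ∈ WW G I α N c 1 := by
    intro j D hD
    refine ⟨?_, ?_⟩
    · have e : G.y i0 ^ N * tt G w₀ j ^ D = aeval G.y (X i0 ^ N * (X j - C (w₀ j)) ^ D) := by
        rw [map_mul, map_pow, map_pow, aeval_X, map_sub, aeval_X, aeval_C]
        rfl
      rw [e]
      have hdeg : (X i0 ^ N * (X j - C (w₀ j)) ^ D : MvPolynomial (Fin n) ℂ).totalDegree ≤
          2 * N := by
        refine (totalDegree_mul _ _).trans ?_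
        have h1 : (X i0 ^ N : MvPolynomial (Fin n) ℂ).totalDegree ≤ N := by
          rw [totalDegree_X_pow]
        have h2 : ((X j - C (w₀ j)) ^ D : MvPolynomial (Fin n) ℂ).totalDegree ≤ D := by
          refine (totalDegree_pow _ _).trans ?_
          have h3 : (X j - C (w₀ j) : MvPolynomial (Fin n) ℂ).totalDegree ≤ 1 := by
            refine (totalDegree_sub_C_le _ _).trans ?_
            rw [totalDegree_X]
          calc D * (X j - C (w₀ j) : MvPolynomial (Fin n) ℂ).totalDegree ≤ D * 1 :=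
                Nat.mul_le_mul_left _ h3
            _ = D := mul_one D
        omega
      refine VD_mono ?_ (aeval_mem_VD hc1 hdeg)
      rw [mul_one, hα]
      have : c * 1 ≤ c * N := Nat.mul_le_mul_left _ hN
      have h5 : (2 * c + 2) * N = 2 * (c * N) + 2 * N := by ring
      rw [h5]
      omega
    · rw [pow_one]
      apply Ideal.mul_mem_right
      have h1 := hI (Pi.single i0 N) (by
        rw [Finset.sum_eq_single i0]
        · rw [Pi.single_eq_same]
        · intro j _ hj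
          rw [Pi.single_eq_of_ne hj]
        · simp)
      have h2 : ∏ j, G.y j ^ (Pi.single i0 N : Fin n → ℕ) j = G.y i0 ^ N := by
        rw [Finset.prod_eq_single i0]
        · rw [Pi.single_eq_same]
        · intro j _ hj
          rw [Pi.single_eq_of_ne hj, pow_zero]
        · simp
      rw [h2] at h1
      exact h1
  have hAmem : ∀ (j : Fin n) (D : ℕ), D ≤ N → co m0 + Pi.single j D ∈ A := by
    intro j D hD
    rw [hA, Finset.mem_image]
    refine ⟨m0 + Finsupp.single j D, ?_, ?_⟩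
    · rw [Set.Finite.mem_toFinset]
      exact ⟨_, hmem j D hD, hm0.mul (inx_tt_pow hτ j D)⟩
    · rw [hco]
      funext i
      simp only [Finsupp.coe_add, Pi.add_apply]
      congr 1
      by_cases hij : i = j
      · subst hij
        rw [Finsupp.single_eq_same, Pi.single_eq_same]
      · rw [Finsupp.single_eq_of_ne hij, Pi.single_eq_of_ne hij]
  have hA0 : co m0 ∈ A := by
    have := hAmem i0 0 (Nat.zero_le _)
    rwa [Pi.single_zero, add_zero] at this
  obtain ⟨M, hM⟩ := sumset_card (A := A) (a₀ := co m0) (D := N) hn hN hA0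
    (fun j => hAmem j 1 hN) (fun j => hAmem j N le_rfl)
  refine ⟨M, fun k hk => ?_⟩
  set S : ℕ → Set (Fin n → ℕ) := fun k => if k = 0 then {0} else co '' InSet τ (WW G I α N c k)
    with hS
  have h0 : (0 : Fin n → ℕ) ∈ S 0 := by
    rw [hS]
    simp
  have hcα : c ≤ α * N := by
    have : c * 1 ≤ c * N := Nat.mul_le_mul_left _ hN
    have h5 : (2 * c + 2) * N = 2 * (c * N) + 2 * N := by ring
    rw [hα, h5]
    omega
  have hstep : ∀ k, ∀ s ∈ S k, ∀ a ∈ A, s + a ∈ S (k + 1) := by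
    intro k s hs a ha
    rw [hA, Finset.mem_image] at ha
    obtain ⟨m, hm, rfl⟩ := ha
    rw [Set.Finite.mem_toFinset] at hm
    have hk1 : S (k + 1) = co '' InSet τ (WW G I α N c (k + 1)) := by
      rw [hS]
      simp
    rw [hk1]
    rcases Nat.eq_zero_or_pos k with hk0 | hk0
    · subst hk0
      have hs' : s = 0 := by
        rw [hS] at hs
        simpa using hs
      refine ⟨m, hm, ?_⟩
      rw [hs', zero_add]
    · have hs' : s ∈ co '' InSet τ (WW G I α N c k) := by
        rw [hS] at hs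
        simpa [hk0.ne'] using hs
      obtain ⟨m', hm', rfl⟩ := hs'
      obtain ⟨b, hb, hbm⟩ := hm
      obtain ⟨b', hb', hbm'⟩ := hm'
      exact ⟨m' + m, ⟨b' * b, WW_mul hc hcα hk0 hb' hb, hbm'.mul hbm⟩, rfl⟩
  have hk0 : 0 < k := by
    have h1 : (0 : ℝ) < k := lt_of_le_of_lt (by positivity) hk
    exact_mod_cast h1
  have hT := hM S h0 hstep k hk ((hfin (k + M)).toFinset.image co) (by
    intro s hs
    have hs' : s ∈ co '' InSet τ (WW G I α N c (k + M)) := by
      have hne : ¬ (k + M = 0) := by omega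
      simp only [hS] at hs
      rw [if_neg hne] at hs
      exact hs
    obtain ⟨m, hm, rfl⟩ := hs'
    rw [Finset.mem_image]
    exact ⟨m, by rwa [Set.Finite.mem_toFinset], rfl⟩)
  have hTcard : ((hfin (k + M)).toFinset.image co).card ≤
      Module.finrank ℂ (WW G I α N c (k + M)) := by
    rw [Finset.card_image_of_injective _ hcoinj]
    exact card_le_finrank _ fun m hm => by rwa [Set.Finite.mem_toFinset] at hm
  have hpos : (0 : ℝ) ≤ ((k : ℝ) - n / N) ^ n := pow_nonneg (by linarith) _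
  calc (Module.finrank ℂ (WW G I α N c 1) : ℝ) * ((k : ℝ) - n / N) ^ n
      ≤ (A.card : ℝ) * ((k : ℝ) - n / N) ^ n := by
        apply mul_le_mul_of_nonneg_right _ hpos
        exact_mod_cast hAcard'
    _ ≤ _ := hT
    _ ≤ _ := by
        apply mul_le_mul_of_nonneg_left _ (by positivity)
        exact_mod_cast hTcard

theorem colength_WW [IsDomain B] {c : ℕ} (hc2 : ∀ (b : B) (T : ℕ), ∃ v ∈ VD G (T + c),
    b - v ∈ (idealOfVars (Fin n) ℂ ^ (T + 1)).map
      (aeval G.y : MvPolynomial (Fin n) ℂ →ₐ[ℂ] B).toRingHom) {I : Ideal B} {N : ℕ} (hN : 1 ≤ N)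
    (hI : ∀ m : Fin n → ℕ, N ≤ ∑ j, m j → ∏ j, G.y j ^ m j ∈ I) {k : ℕ} (hk : 1 ≤ k) :
    colength ℂ (I ^ k) + Module.finrank ℂ (WW G I (2 * c + 2) N c k) =
      Module.finrank ℂ (VD G ((2 * c + 2) * N * k - c)) := by
  apply colength_eq
  intro b
  have h1 : c * 1 ≤ c * (N * k) := Nat.mul_le_mul_left _ (Nat.one_le_iff_ne_zero.2
    (Nat.mul_ne_zero (by omega) (by omega)))
  have h5 : (2 * c + 2) * N * k = 2 * (c * (N * k)) + 2 * (N * k) := by ring
  obtain ⟨v, hv, hbv⟩ := hc2 b ((2 * c + 2) * N * k - 2 * c)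
  refine ⟨v, ?_, ?_⟩
  · have h6 : (2 * c + 2) * N * k - 2 * c + c = (2 * c + 2) * N * k - c := by
      rw [h5]
      omega
    rwa [h6] at hv
  · refine pow_map_le hI k (Ideal.map_mono (Ideal.pow_le_pow_right ?_) hbv)
    rw [h5]
    omega

end Fujita

set_option linter.unusedVariables false in
open Fujita in
/-- The multiplicities of the members of a graded sequence of ideals approximate its volume. -/
theorem mult_le {n d : ℕ} {B : Type} [CommRing B] [IsDomain B] [Algebra ℂ B] (G : Germ n d B)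
    (hn : 1 ≤ n) (J : ℕ → Ideal B) (hJ : ∀ N M, J N * J M ≤ J (N + M))
    (hy : ∀ N (m : Fin n → ℕ), N ≤ ∑ j, m j → ∏ j, G.y j ^ m j ∈ J N) {v : ℝ} {u : ℕ → ℝ}
    (hu : Tendsto u atTop (𝓝 v))
    (hv : ∀ N : ℕ, 1 ≤ N → ((n.factorial * colength ℂ (J N) : ℕ) : ℝ) / (N : ℝ) ^ n ≤ u N)
    {ε : ℝ} (hε : 0 < ε) {q : ℕ} (hq : 1 ≤ q) :
    ∃ N : ℕ, 1 ≤ N ∧ q ∣ N ∧ mult n (J N) ≤ ENNReal.ofReal ((v + ε) * (N : ℝ) ^ n) := by
  obtain ⟨c, hc0, hcD, hc, hc1, hc2⟩ := exists_const G
  set α := 2 * c + 2 with hα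
  set δ := G.D.totalDegree with hδ
  -- a point over which the covering is unramified
  obtain ⟨w₀, hw⟩ : ∃ w, eval w G.D ≠ 0 := by
    by_contra hcon
    push Not at hcon
    exact G.D_ne (MvPolynomial.funext fun w => by rw [hcon w, map_zero])
  have hd : 0 < d := by
    rcases Nat.eq_zero_or_pos d with h0 | h0
    · exfalso
      subst h0
      exact one_ne_zero (G.cf_inj (b := (1 : B)) fun i => Fin.elim0 i)
    · exact h0
  obtain ⟨χ₀, hχ₀⟩ : ∃ χ : Pt B, proj G.y χ = w₀ := by
    have h1 := G.card w₀ hw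
    have h2 : {χ : Pt B | proj G.y χ = w₀}.Nonempty := by
      rw [Set.nonempty_iff_ne_empty]
      intro h3
      rw [h3, Set.ncard_empty] at h1
      omega
    exact h2
  obtain ⟨τ, hτ⟩ := exists_taylor hw hχ₀
  -- the bound for each N
  have key : ∀ N : ℕ, 1 ≤ N → mult n (J N) ≤ ENNReal.ofReal
      ((d : ℝ) * ((α * N : ℕ) : ℝ) ^ n -
        (n.factorial * ((d : ℝ) * nmon n (α * N - (c + δ))) - u N * (N : ℝ) ^ n) /
          (1 + (n : ℝ) / N) ^ n) := by
    intro N hN
    have hI := hy N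
    obtain ⟨M, hM⟩ := growth hn hτ hc hc1 hN hI
    set w1 : ℝ := ((Module.finrank ℂ (WW G (J N) α N c 1) : ℕ) : ℝ) with hw1
    have hNr : (0 : ℝ) < N := by exact_mod_cast hN
    have hw1' : n.factorial * ((d : ℝ) * nmon n (α * N - (c + δ))) - u N * (N : ℝ) ^ n ≤
        n.factorial * w1 := by
      have h1 := colength_WW (G := G) hc2 hN hI (le_refl 1)
      rw [pow_one, mul_one, ← hα] at h1
      have h3 : d * nmon n (α * N - c - δ) ≤ Module.finrank ℂ (VD G (α * N - c)) := by
        apply le_finrank_VD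
        have h5 : α * N = 2 * (c * N) + 2 * N := by rw [hα]; ring
        have h6 : c * 1 ≤ c * N := Nat.mul_le_mul_left _ hN
        omega
      rw [Nat.sub_sub] at h3
      have h2 : (d : ℝ) * nmon n (α * N - (c + δ)) ≤ (colength ℂ (J N) : ℝ) + w1 := by
        rw [hw1]
        exact_mod_cast h3.trans h1.ge
      have h4 := hv N hN
      rw [div_le_iff₀ (by positivity)] at h4
      push_cast at h4
      have h5 : (n.factorial : ℝ) * ((d : ℝ) * nmon n (α * N - (c + δ))) ≤
          n.factorial * ((colength ℂ (J N) : ℝ) + w1) :=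
        mul_le_mul_of_nonneg_left h2 (by positivity)
      linarith
    set Q : ℝ := (1 + (n : ℝ) / N) ^ n with hQ
    have hQpos : 0 < Q := by positivity
    refine le_trans ?_ (ENNReal.ofReal_le_ofReal (sub_le_sub_left
      (div_le_div_of_nonneg_right hw1' hQpos.le) _))
    -- the upper bound sequence
    set ub : ℕ → ℝ := fun k => (d : ℝ) * (((n.factorial * nmon n (α * N * k - c) : ℕ) : ℝ) /
      (k : ℝ) ^ n) - n.factorial * w1 / Q * ((k - (M : ℝ) - n / N) / k) ^ n with hub
    have hlim : Tendsto ub atTop (𝓝 ((d : ℝ) * ((α * N : ℕ) : ℝ) ^ n - n.factorial * w1 / Q)) := by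
      have h1 := (nmon_tendsto n (α * N) c (Nat.one_le_iff_ne_zero.2
        (Nat.mul_ne_zero (by omega) (by omega)))).const_mul (d : ℝ)
      have h2 : Tendsto (fun k : ℕ => (k - (M : ℝ) - n / N) / (k : ℝ)) atTop (𝓝 1) := by
        have h3 : Tendsto (fun k : ℕ => (1 : ℝ) + (-(M : ℝ) - n / N) / (k : ℝ)) atTop
            (𝓝 (1 + 0)) :=
          tendsto_const_nhds.add (tendsto_const_div_atTop_nhds_zero_nat _)
        rw [add_zero] at h3
        refine h3.congr' ?_
        filter_upwards [eventually_ge_atTop 1] with k hk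
        have hk0 : (0 : ℝ) < k := by exact_mod_cast hk
        field_simp
        ring
      have h4 := h1.sub ((h2.pow n).const_mul ((n.factorial : ℝ) * w1 / Q))
      rw [one_pow, mul_one] at h4
      exact h4
    have hev : ∀ᶠ k : ℕ in atTop, ((n.factorial * colength ℂ (J N ^ k) : ℕ) : ℝ) / (k : ℝ) ^ n ≤
        ub k := by
      obtain ⟨K₀, hK₀⟩ := exists_nat_gt ((n : ℝ) / N)
      filter_upwards [eventually_ge_atTop (K₀ + M + 1)] with k hk
      have hk1 : 1 ≤ k := by omega
      have hk0 : (0 : ℝ) < k := by exact_mod_cast hk1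
      obtain ⟨k', rfl⟩ : ∃ k', k = k' + M := ⟨k - M, by omega⟩
      have hk' : (n : ℝ) / N < k' := by
        refine lt_trans hK₀ ?_
        have : K₀ < k' := by omega
        exact_mod_cast this
      have h1 := hM k' hk'
      have h2 := colength_WW (G := G) hc2 hN hI hk1
      rw [← hα] at h1 h2
      have h2' : Module.finrank ℂ (VD G (α * N * (k' + M) - c)) ≤
          d * nmon n (α * N * (k' + M) - c) := finrank_VD_le _
      set wk : ℝ := ((Module.finrank ℂ (WW G (J N) α N c (k' + M)) : ℕ) : ℝ) with hwk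
      have h3 : (colength ℂ (J N ^ (k' + M)) : ℝ) + wk ≤
          (d : ℝ) * nmon n (α * N * (k' + M) - c) := by
        rw [hwk]
        exact_mod_cast h2.le.trans h2'
      have h4 : w1 / Q * ((k' : ℝ) - n / N) ^ n ≤ wk := by
        rw [div_mul_eq_mul_div, div_le_iff₀ hQpos, mul_comm wk]
        exact h1
      have hkn : (0 : ℝ) < ((k' + M : ℕ) : ℝ) ^ n := by positivity
      rw [div_le_iff₀ hkn]
      simp only [hub]
      have h5 : ((k' + M : ℕ) : ℝ) - (M : ℝ) - n / N = (k' : ℝ) - n / N := by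
        push_cast
        ring
      rw [h5, div_pow]
      have h6 : ((d : ℝ) * (((n.factorial * nmon n (α * N * (k' + M) - c) : ℕ) : ℝ) /
          ((k' + M : ℕ) : ℝ) ^ n) - n.factorial * w1 / Q * (((k' : ℝ) - n / N) ^ n /
            ((k' + M : ℕ) : ℝ) ^ n)) * ((k' + M : ℕ) : ℝ) ^ n =
          n.factorial * ((d : ℝ) * nmon n (α * N * (k' + M) - c) -
            w1 / Q * ((k' : ℝ) - n / N) ^ n) := by
        have hX := hkn.ne'
        generalize ((k' + M : ℕ) : ℝ) ^ n = X at hX
        generalize ((k' : ℝ) - n / N) ^ n = Y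
        rw [Nat.cast_mul]
        field_simp
      rw [h6]
      push_cast
      apply mul_le_mul_of_nonneg_left _ (by positivity)
      linarith
    -- limsup
    unfold mult
    have hub' : Tendsto (fun k => ENNReal.ofReal (ub k)) atTop
        (𝓝 (ENNReal.ofReal ((d : ℝ) * ((α * N : ℕ) : ℝ) ^ n - n.factorial * w1 / Q))) :=
      (ENNReal.continuous_ofReal.tendsto _).comp hlim
    rw [← hub'.limsup_eq]
    apply limsup_le_limsup
    · filter_upwards [hev, eventually_ge_atTop 1] with k hk hk1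
      have hk0 : (0 : ℝ) < k := by exact_mod_cast hk1
      have h1 : ((n.factorial * colength ℂ (J N ^ k) : ℕ) : ℝ≥0∞) / ((k ^ n : ℕ) : ℝ≥0∞) =
          ENNReal.ofReal (((n.factorial * colength ℂ (J N ^ k) : ℕ) : ℝ) / (k : ℝ) ^ n) := by
        rw [ENNReal.ofReal_div_of_pos (by positivity), ENNReal.ofReal_natCast, ← Nat.cast_pow,
          ENNReal.ofReal_natCast]
      rw [h1]
      exact ENNReal.ofReal_le_ofReal hk
    · isBoundedDefault
    · isBoundedDefault
  -- the limit in N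
  have hlimN : Tendsto (fun N : ℕ => ((d : ℝ) * ((α * N : ℕ) : ℝ) ^ n -
      (n.factorial * ((d : ℝ) * nmon n (α * N - (c + δ))) - u N * (N : ℝ) ^ n) /
        (1 + (n : ℝ) / N) ^ n) / (N : ℝ) ^ n) atTop (𝓝 v) := by
    have h1 := (nmon_tendsto n α (c + δ) (by omega)).const_mul (d : ℝ)
    have h2 : Tendsto (fun N : ℕ => (1 + (n : ℝ) / N) ^ n) atTop (𝓝 ((1 + 0) ^ n)) :=
      (tendsto_const_nhds.add (tendsto_const_div_atTop_nhds_zero_nat _)).pow n
    rw [add_zero, one_pow] at h2
    have h3 := (h1.sub hu).div h2 one_ne_zero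
    rw [div_one] at h3
    have h4 := (tendsto_const_nhds (x := (d : ℝ) * (α : ℝ) ^ n)).sub h3
    have h5 : (d : ℝ) * (α : ℝ) ^ n - ((d : ℝ) * (α : ℝ) ^ n - v) = v := by ring
    rw [h5] at h4
    refine h4.congr' ?_
    filter_upwards [eventually_ge_atTop 1] with N hN
    have hN0 : (0 : ℝ) < N := by exact_mod_cast hN
    have hQpos : (0 : ℝ) < (1 + (n : ℝ) / N) ^ n := by positivity
    push_cast
    rw [mul_pow]
    simp only [Pi.div_apply]
    field_simp
  -- choose N
  have h1 : ∀ᶠ N : ℕ in atTop, ((d : ℝ) * ((α * N : ℕ) : ℝ) ^ n -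
      (n.factorial * ((d : ℝ) * nmon n (α * N - (c + δ))) - u N * (N : ℝ) ^ n) /
        (1 + (n : ℝ) / N) ^ n) / (N : ℝ) ^ n < v + ε :=
    hlimN.eventually (gt_mem_nhds (by linarith))
  obtain ⟨N₀, hN₀⟩ := eventually_atTop.1 h1
  refine ⟨q * (N₀ + 1), ?_, dvd_mul_right _ _, ?_⟩
  · exact Nat.one_le_iff_ne_zero.2 (Nat.mul_ne_zero (by omega) (by omega))
  · set N := q * (N₀ + 1) with hN
    have hN1 : 1 ≤ N := Nat.one_le_iff_ne_zero.2 (Nat.mul_ne_zero (by omega) (by omega))
    have hNr : (0 : ℝ) < N := by exact_mod_cast hN1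
    have h2 := hN₀ N (by
      rw [hN]
      calc N₀ ≤ 1 * (N₀ + 1) := by omega
        _ ≤ q * (N₀ + 1) := Nat.mul_le_mul_right _ hq)
    rw [div_lt_iff₀ (by positivity)] at h2
    exact (key N hN1).trans (ENNReal.ofReal_le_ofReal h2.le)

end Pool.Agent.Odp3
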