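import Pool.Agent.Odp3.Vol.FujitaSer

/-!
# Initial exponents and dimensions (for `Vol/Fujita`)
-/

open MvPolynomial
open scoped Classical

namespace Pool.Agent.Odp3.Fujita

section inx

variable {n : ℕ} {B : Type} [CommRing B] [Algebra ℂ B]

/-- `m` is the lexicographically least exponent of the Taylor series of `b` -/
def Inx (τ : B →ₐ[ℂ] MvPowerSeries (Fin n) ℂ) (b : B) (m : Fin n →₀ ℕ) : Prop :=
  MvPowerSeries.lexOrder (τ b) = ((toLex m : Lex (Fin n →₀ ℕ)) : WithTop (Lex (Fin n →₀ ℕ)))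

theorem Inx.mul {τ : B →ₐ[ℂ] MvPowerSeries (Fin n) ℂ} {b b' : B} {m m' : Fin n →₀ ℕ}
    (h : Inx τ b m) (h' : Inx τ b' m') : Inx τ (b * b') (m + m') := by
  unfold Inx at *
  rw [map_mul, MvPowerSeries.lexOrder_mul, h, h']
  rfl

theorem Inx.unique {τ : B →ₐ[ℂ] MvPowerSeries (Fin n) ℂ} {b : B} {m m' : Fin n →₀ ℕ}
    (h : Inx τ b m) (h' : Inx τ b m') : m = m' := by
  unfold Inx at *
  rw [h] at h'
  exact toLex.injective (WithTop.coe_injective h')

theorem Inx.coeff_ne {τ : B →ₐ[ℂ] MvPowerSeries (Fin n) ℂ} {b : B} {m : Fin n →₀ ℕ}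
    (h : Inx τ b m) : MvPowerSeries.coeff m (τ b) ≠ 0 :=
  MvPowerSeries.coeff_ne_zero_of_lexOrder h.symm

theorem Inx.coeff_eq {τ : B →ₐ[ℂ] MvPowerSeries (Fin n) ℂ} {b : B} {m m' : Fin n →₀ ℕ}
    (h : Inx τ b m) (hlt : toLex m' < toLex m) : MvPowerSeries.coeff m' (τ b) = 0 := by
  apply MvPowerSeries.coeff_eq_zero_of_lt_lexOrder
  rw [h]
  exact WithTop.coe_lt_coe.2 hlt

theorem exists_inx {τ : B →ₐ[ℂ] MvPowerSeries (Fin n) ℂ} {b : B} (h : τ b ≠ 0) :
    ∃ m, Inx τ b m :=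
  MvPowerSeries.exists_finsupp_eq_lexOrder_of_ne_zero h

/-- the set of the initial exponents of a subspace -/
def InSet (τ : B →ₐ[ℂ] MvPowerSeries (Fin n) ℂ) (W : Submodule ℂ B) : Set (Fin n →₀ ℕ) :=
  {m | ∃ b ∈ W, Inx τ b m}

theorem card_le_finrank {τ : B →ₐ[ℂ] MvPowerSeries (Fin n) ℂ} {W : Submodule ℂ B}
    [FiniteDimensional ℂ W] (F : Finset (Fin n →₀ ℕ)) (hF : ∀ m ∈ F, m ∈ InSet τ W) :
    F.card ≤ Module.finrank ℂ W := by
  choose! f hfW hf using hF
  have hli : LinearIndependent ℂ fun m : F => (⟨f m, hfW m m.2⟩ : W) := by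
    rw [linearIndependent_iff']
    intro s g hg
    by_contra hcon
    push Not at hcon
    obtain ⟨i₀, hi₀, hgi₀⟩ := hcon
    -- the least exponent with a nonzero coefficient
    set s' : Finset F := s.filter fun i => g i ≠ 0 with hs'
    have hne : s'.Nonempty := ⟨i₀, by rw [hs', Finset.mem_filter]; exact ⟨hi₀, hgi₀⟩⟩
    obtain ⟨j, hj, hmin⟩ := Finset.exists_min_image s' (fun i => toLex (i : Fin n →₀ ℕ)) hne
    rw [hs', Finset.mem_filter] at hj
    have h1 : ∑ i ∈ s, g i • f i = 0 := by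
      have h2 := congrArg (fun w : W => (w : B)) hg
      simpa using h2
    have h2 := congrArg (fun b => MvPowerSeries.coeff (j : Fin n →₀ ℕ) (τ b)) h1
    simp only [map_sum, map_smul, map_zero] at h2
    rw [Finset.sum_eq_single j] at h2
    · rw [smul_eq_mul] at h2
      rcases mul_eq_zero.1 h2 with h3 | h3
      · exact hj.2 h3
      · exact (hf j j.2).coeff_ne h3
    · intro i hi hij
      by_cases hgi : g i = 0
      · rw [hgi, zero_smul]
      · have h3 := hmin i (by rw [hs', Finset.mem_filter]; exact ⟨hi, hgi⟩)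
        have h4 : toLex (j : Fin n →₀ ℕ) < toLex (i : Fin n →₀ ℕ) := by
          apply lt_of_le_of_ne h3
          intro h5
          exact hij (Subtype.ext (toLex.injective h5.symm))
        rw [(hf i i.2).coeff_eq h4, smul_zero]
    · intro hnot
      exact absurd hj.1 hnot
  have h1 := hli.fintype_card_le_finrank
  rwa [Fintype.card_coe] at h1

theorem finite_inSet {τ : B →ₐ[ℂ] MvPowerSeries (Fin n) ℂ} {W : Submodule ℂ B}
    [FiniteDimensional ℂ W] : (InSet τ W).Finite := by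
  by_contra hcon
  obtain ⟨F, hF, hcard⟩ := (Set.not_finite.1 hcon).exists_subset_card_eq
    (Module.finrank ℂ W + 1)
  have := card_le_finrank (τ := τ) (W := W) F (fun m hm => hF hm)
  omega

theorem finrank_le_card {τ : B →ₐ[ℂ] MvPowerSeries (Fin n) ℂ} (hτ : ∀ b, τ b = 0 → b = 0)
    {W : Submodule ℂ B} [FiniteDimensional ℂ W] (F : Finset (Fin n →₀ ℕ))
    (hF : ∀ m ∈ InSet τ W, m ∈ F) : Module.finrank ℂ W ≤ F.card := by
  set g : W →ₗ[ℂ] (F → ℂ) :=
    LinearMap.pi fun m => (MvPowerSeries.coeff (R := ℂ) (m : Fin n →₀ ℕ)).comp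
      (τ.toLinearMap.comp W.subtype) with hg
  have hinj : Function.Injective g := by
    rw [injective_iff_map_eq_zero]
    intro w hw
    by_contra hne
    have h1 : τ (w : B) ≠ 0 := fun h => hne (Subtype.ext (hτ _ h))
    obtain ⟨m, hm⟩ := exists_inx h1
    have h2 : m ∈ F := hF m ⟨w, w.2, hm⟩
    exact hm.coeff_ne (congrFun hw ⟨m, h2⟩)
  have h1 := LinearMap.finrank_le_finrank_of_injective hinj
  rwa [Module.finrank_fintype_fun_eq_card, Fintype.card_coe] at h1

end inx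

end Pool.Agent.Odp3.Fujita
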