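import Mathlib

/-!
# Lattice points and volumes of fat convex sets (for Lemma L)
-/

open MeasureTheory Set
open scoped ENNReal Pointwise

namespace Pool.Agent.Odp3.Fujita

/-- the half open unit cube at the point `z` -/
def cube {n : ℕ} (z : Fin n → ℕ) : Set (Fin n → ℝ) :=
  Set.pi Set.univ fun i => Set.Ico (z i : ℝ) (z i + 1)

theorem mem_cube {n : ℕ} {z : Fin n → ℕ} {x : Fin n → ℝ} :
    x ∈ cube z ↔ ∀ i, (z i : ℝ) ≤ x i ∧ x i < z i + 1 := by
  simp [cube, Set.mem_pi]

theorem volume_cube {n : ℕ} (z : Fin n → ℕ) : volume (cube z) = 1 := by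
  unfold cube
  rw [Real.volume_pi_Ico]
  simp

theorem measurableSet_cube {n : ℕ} (z : Fin n → ℕ) : MeasurableSet (cube z) :=
  MeasurableSet.univ_pi fun _ => measurableSet_Ico

theorem cube_disjoint {n : ℕ} {z w : Fin n → ℕ} (h : z ≠ w) : Disjoint (cube z) (cube w) := by
  rw [Set.disjoint_left]
  intro x hx hx'
  apply h
  funext i
  have h1 := mem_cube.1 hx i
  have h2 := mem_cube.1 hx' i
  have h3 : (z i : ℝ) < w i + 1 := lt_of_le_of_lt h1.1 h2.2
  have h4 : (w i : ℝ) < z i + 1 := lt_of_le_of_lt h2.1 h1.2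
  have h5 : z i < w i + 1 := by exact_mod_cast h3
  have h6 : w i < z i + 1 := by exact_mod_cast h4
  omega

theorem volume_union_cube {n : ℕ} (G : Finset (Fin n → ℕ)) :
    volume (⋃ z ∈ G, cube z) = (G.card : ℝ≥0∞) := by
  rw [measure_biUnion_finset (fun z _ w _ h => cube_disjoint h)
    (fun z _ => measurableSet_cube z)]
  simp [volume_cube]

/-- Upper bound for the number of lattice points of a fat convex set. -/
theorem card_le_volume {n : ℕ} (G : Finset (Fin n → ℕ)) {K : Set (Fin n → ℝ)}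
    (hK : Convex ℝ K) (hG : ∀ z ∈ G, (fun i => (z i : ℝ)) ∈ K) {a : Fin n → ℝ} {r : ℝ}
    (hr : 0 < r) (hbox : ∀ u : Fin n → ℝ, (∀ i, 0 ≤ u i ∧ u i ≤ r) → a + u ∈ K) :
    (G.card : ℝ≥0∞) ≤ ENNReal.ofReal ((1 + 1 / r) ^ n) * volume K := by
  rw [← volume_union_cube G]
  have h1 : (⋃ z ∈ G, cube z) ⊆ (fun x => -((1 / r) • a) + x) '' ((1 + 1 / r) • K) := by
    intro x hx
    simp only [Set.mem_iUnion, exists_prop] at hx
    obtain ⟨z, hz, hxz⟩ := hx
    rw [mem_cube] at hxz
    set g : Fin n → ℝ := fun i => (z i : ℝ) with hg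
    set u : Fin n → ℝ := fun i => r * (x i - z i) with hu
    have hgK : g ∈ K := hG z hz
    have huK : a + u ∈ K := hbox u fun i => by
      have h := hxz i
      constructor
      · exact mul_nonneg hr.le (by linarith)
      · have : r * (x i - z i) ≤ r * 1 := mul_le_mul_of_nonneg_left (by linarith) hr.le
        simpa using this
    have hconv : (r / (r + 1)) • g + (1 / (r + 1)) • (a + u) ∈ K := by
      apply hK hgK huK (by positivity) (by positivity)
      field_simp
    refine ⟨(1 + 1 / r) • ((r / (r + 1)) • g + (1 / (r + 1)) • (a + u)),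
      Set.smul_mem_smul_set hconv, ?_⟩
    funext i
    simp only [Pi.add_apply, Pi.neg_apply, Pi.smul_apply, smul_eq_mul, hg, hu]
    field_simp
    ring
  refine (measure_mono h1).trans ?_
  rw [Set.image_add_left, neg_neg, measure_preimage_add, Measure.addHaar_smul]
  apply le_of_eq
  congr 1
  rw [Module.finrank_fin_fun, abs_of_nonneg (by positivity)]

/-- Lower bound: the integer points `z` with `z ∈ t K`, `K` fat and contained in the positive
orthant. -/
theorem volume_le_card {n : ℕ} {K : Set (Fin n → ℝ)} (hK : Convex ℝ K)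
    (hpos : ∀ x ∈ K, ∀ i, 0 ≤ x i) {a : Fin n → ℝ} {r : ℝ}
    (hr : 0 < r) (hbox : ∀ u : Fin n → ℝ, (∀ i, 0 ≤ u i ∧ u i ≤ r) → a + u ∈ K)
    {t : ℝ} (ht : 1 / r < t) (G : Finset (Fin n → ℕ))
    (hG : ∀ z : Fin n → ℕ, (fun i => (z i : ℝ)) ∈ t • K → z ∈ G) :
    ENNReal.ofReal ((t - 1 / r) ^ n) * volume K ≤ (G.card : ℝ≥0∞) := by
  rw [← volume_union_cube G]
  have h0 : volume ((fun x => ((1 / r) • a + fun _ => 1) + x) '' ((t - 1 / r) • K)) =
      ENNReal.ofReal ((t - 1 / r) ^ n) * volume K := by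
    rw [Set.image_add_left, measure_preimage_add, Measure.addHaar_smul, Module.finrank_fin_fun,
      abs_of_nonneg (pow_nonneg (by linarith) n)]
  rw [← h0]
  apply measure_mono
  rintro x ⟨y, ⟨w, hw, rfl⟩, rfl⟩
  set x : Fin n → ℝ := ((1 / r) • a + fun _ => 1) + (t - 1 / r) • w with hx
  have hfr : 0 < t - 1 / r := by linarith
  -- the point x - u for u in the unit cube lies in t K
  have hmem : ∀ u : Fin n → ℝ, (∀ i, 0 ≤ u i ∧ u i ≤ 1) → x - u ∈ t • K := by
    intro u hu
    have h1 : a + (fun i => r * (1 - u i)) ∈ K := hbox _ fun i => by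
      constructor
      · exact mul_nonneg hr.le (by linarith [(hu i).2])
      · have : r * (1 - u i) ≤ r * 1 := mul_le_mul_of_nonneg_left (by linarith [(hu i).1]) hr.le
        simpa using this
    have htpos : 0 < t := lt_trans (by positivity) ht
    have h2 : ((t - 1 / r) / t) • w + ((1 / r) / t) • (a + fun i => r * (1 - u i)) ∈ K := by
      apply hK hw h1 (by positivity) (by positivity)
      field_simp
      ring
    refine ⟨_, h2, ?_⟩
    funext i
    simp only [hx, Pi.add_apply, Pi.sub_apply, Pi.smul_apply, smul_eq_mul]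
    field_simp
    ring
  have hxpos : ∀ i, 0 ≤ x i - 1 := by
    intro i
    obtain ⟨v, hv, hv'⟩ := hmem (fun _ => 1) fun _ => ⟨zero_le_one, le_refl _⟩
    have h3 := congrFun hv' i
    simp only [Pi.smul_apply, Pi.sub_apply, smul_eq_mul] at h3
    have htpos : 0 < t := lt_trans (by positivity) ht
    rw [← h3]
    exact mul_nonneg htpos.le (hpos v hv i)
  set z : Fin n → ℕ := fun i => ⌊x i⌋₊ with hz
  have hfl : ∀ i, (z i : ℝ) ≤ x i ∧ x i < z i + 1 := fun i =>
    ⟨Nat.floor_le (by linarith [hxpos i]), Nat.lt_floor_add_one _⟩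
  simp only [Set.mem_iUnion, exists_prop]
  refine ⟨z, hG z ?_, mem_cube.2 hfl⟩
  have h4 := hmem (fun i => x i - z i) fun i => ⟨by linarith [(hfl i).1], by linarith [(hfl i).2]⟩
  have h5 : x - (fun i => x i - z i) = fun i => (z i : ℝ) := by
    funext i
    simp
  rwa [h5] at h4

end Pool.Agent.Odp3.Fujita
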