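import Pool.Agent.Odp3.Alg.Cf

/-!
# Taylor expansions at a point over which the covering is unramified (for `Vol/Fujita`)
-/

open MvPolynomial
open scoped Classical

namespace Pool.Agent.Odp3.Fujita

section

variable {n d : ℕ} {B : Type} [CommRing B] [Algebra ℂ B] (G : Germ n d B) (w₀ : Fin n → ℂ)

theorem aeval_eq (w : Fin n → ℂ) (p : MvPolynomial (Fin n) ℂ) :
    (aeval w : MvPolynomial (Fin n) ℂ →ₐ[ℂ] ℂ) p = eval w p := by
  rw [MvPolynomial.aeval_def, MvPolynomial.eval, MvPolynomial.coe_eval₂Hom]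
  rfl

/-- the local parameters at the points over `w₀` -/
def tt (j : Fin n) : B := G.y j - algebraMap ℂ B (w₀ j)

/-- the ideal of the fibre over `w₀` -/
def II : Ideal B := Ideal.span (Set.range (tt G w₀))

variable {G w₀}

theorem cf_add (b b' : B) : G.cf (b + b') = G.cf b + G.cf b' := G.cf_add b b'

theorem cf_mul (q : MvPolynomial (Fin n) ℂ) (b : B) :
    G.cf (aeval G.y q * b) = fun i => q * G.cf b i :=
  funext fun i => G.cf_aeval_mul q b i

theorem cf_zero : G.cf 0 = 0 := funext fun i => G.cf_zero i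

theorem cf_sum {ι : Type*} (s : Finset ι) (f : ι → B) :
    G.cf (∑ i ∈ s, f i) = ∑ i ∈ s, G.cf (f i) := by
  funext i
  rw [Finset.sum_apply]
  exact G.cf_sum s f i

theorem cf_smul (c : ℂ) (b : B) : G.cf (c • b) = c • G.cf b := by
  have h : c • b = aeval G.y (C c) * b := by
    rw [aeval_C, Algebra.smul_def]
  rw [h, cf_mul]
  funext i
  rw [Pi.smul_apply, MvPolynomial.smul_eq_C_mul]

theorem proj_eq {χ : Pt B} (h : proj G.y χ = w₀) (j : Fin n) : χ (G.y j) = w₀ j :=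
  congrFun h j

theorem map_aeval {χ : Pt B} (h : proj G.y χ = w₀) (p : MvPolynomial (Fin n) ℂ) :
    χ (aeval G.y p) = eval w₀ p := by
  have h1 : χ.comp (aeval G.y) = (aeval w₀ : MvPolynomial (Fin n) ℂ →ₐ[ℂ] ℂ) := by
    apply MvPolynomial.algHom_ext
    intro j
    rw [AlgHom.comp_apply, aeval_X, aeval_X]
    exact proj_eq h j
  have h2 := congrArg (fun f => f p) h1
  simp only [AlgHom.comp_apply] at h2
  rw [h2, aeval_eq]

theorem map_eq_sum {χ : Pt B} (h : proj G.y χ = w₀) (b : B) :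
    eval w₀ G.D * χ b = ∑ i, eval w₀ (G.cf b i) * χ (G.e i) := by
  subst h
  exact G.apply_cf χ b

theorem map_tt {χ : Pt B} (h : proj G.y χ = w₀) (j : Fin n) : χ (tt G w₀ j) = 0 := by
  unfold tt
  rw [map_sub, proj_eq h, AlgHom.commutes]
  simp

/-- `p(y) ≡ p(w₀)` modulo the ideal of the fibre -/
theorem aeval_sub_mem (p : MvPolynomial (Fin n) ℂ) :
    aeval G.y p - algebraMap ℂ B (eval w₀ p) ∈ II G w₀ := by
  rw [← Ideal.Quotient.eq_zero_iff_mem, map_sub, sub_eq_zero]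
  have h1 : (Ideal.Quotient.mkₐ ℂ (II G w₀)).comp (aeval G.y) =
      (Algebra.ofId ℂ (B ⧸ II G w₀)).comp (aeval w₀ : MvPolynomial (Fin n) ℂ →ₐ[ℂ] ℂ) := by
    apply MvPolynomial.algHom_ext
    intro j
    rw [AlgHom.comp_apply, AlgHom.comp_apply, aeval_X, aeval_X]
    have h2 : tt G w₀ j ∈ II G w₀ := Ideal.subset_span ⟨j, rfl⟩
    have h3 := Ideal.Quotient.eq_zero_iff_mem.2 h2
    unfold tt at h3
    rw [map_sub, sub_eq_zero] at h3
    exact h3
  have h2 := congrArg (fun f => f p) h1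
  simp only [AlgHom.comp_apply] at h2
  rw [aeval_eq] at h2
  exact h2

/-- a function which vanishes at the points over `w₀` is in the ideal of the fibre -/
theorem mem_II_of_forall (hw : eval w₀ G.D ≠ 0) {f : B}
    (hf : ∀ χ : Pt B, proj G.y χ = w₀ → χ f = 0) : f ∈ II G w₀ := by
  -- all coordinates vanish at w₀
  have hc : ∀ i, eval w₀ (G.cf f i) = 0 := by
    intro j
    rcases Nat.eq_zero_or_pos d with hd | hd
    · subst hd
      exact Fin.elim0 j
    rw [← G.cf_pt hw (G.finite_fibre hw hd).toFinset (fun χ => by rw [Set.Finite.mem_toFinset]; rfl)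
      f j]
    refine Finset.sum_eq_zero fun χ hχ => ?_
    rw [Set.Finite.mem_toFinset] at hχ
    rw [hf χ hχ, mul_zero]
  have h2 : aeval G.y G.D * f ∈ II G w₀ := by
    rw [G.cf_spec f]
    apply Ideal.sum_mem
    intro i _
    have h1 := aeval_sub_mem (G := G) (w₀ := w₀) (G.cf f i)
    rw [hc i, map_zero, sub_zero] at h1
    exact Ideal.mul_mem_right _ _ h1
  have h3 : algebraMap ℂ B (eval w₀ G.D) * f ∈ II G w₀ := by
    have e : algebraMap ℂ B (eval w₀ G.D) * f = aeval G.y G.D * f -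
        (aeval G.y G.D - algebraMap ℂ B (eval w₀ G.D)) * f := by ring
    rw [e]
    exact Ideal.sub_mem _ h2 (Ideal.mul_mem_right _ _ (aeval_sub_mem _))
  have h4 : f = algebraMap ℂ B (eval w₀ G.D)⁻¹ * (algebraMap ℂ B (eval w₀ G.D) * f) := by
    rw [← mul_assoc, ← map_mul, inv_mul_cancel₀ hw, map_one, one_mul]
  rw [h4]
  exact Ideal.mul_mem_left _ _ h3

/-- there is an element which is `1` at `χ₀` and vanishes at the other points over `w₀` -/
theorem exists_sigma (hw : eval w₀ G.D ≠ 0) {χ₀ : Pt B} (hχ₀ : proj G.y χ₀ = w₀) :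
    ∃ σ : B, χ₀ σ = 1 ∧ ∀ b : B, χ₀ b = 0 → σ * b ∈ II G w₀ := by
  refine ⟨algebraMap ℂ B (eval w₀ G.D)⁻¹ * ∑ i, algebraMap ℂ B (χ₀ (G.du i)) * G.e i, ?_, ?_⟩
  · rw [map_mul, AlgHom.commutes, map_sum]
    have h1 := (G.du_spec w₀ hw χ₀ χ₀ hχ₀ hχ₀).1 rfl
    have h2 : ∑ i, χ₀ (algebraMap ℂ B (χ₀ (G.du i)) * G.e i) = eval w₀ G.D := by
      rw [← h1]
      refine Finset.sum_congr rfl fun i _ => ?_
      rw [map_mul, AlgHom.commutes]
      rfl
    rw [h2]
    exact inv_mul_cancel₀ hw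
  · intro b hb
    apply mem_II_of_forall hw
    intro χ hχ
    rw [map_mul]
    by_cases h : χ = χ₀
    · rw [h, hb, mul_zero]
    · rw [map_mul, map_sum]
      have h1 := (G.du_spec w₀ hw χ₀ χ hχ₀ hχ).2 (fun h' => h h'.symm)
      have h2 : ∑ i, χ (algebraMap ℂ B (χ₀ (G.du i)) * G.e i) = 0 := by
        rw [← h1]
        refine Finset.sum_congr rfl fun i _ => ?_
        rw [map_mul, AlgHom.commutes]
        rfl
      rw [h2, mul_zero, zero_mul]

/-- The relation `b ≡ p(t)` to order `k` at `χ₀`. -/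
def Rel (G : Germ n d B) (w₀ : Fin n → ℂ) (χ₀ : Pt B) (k : ℕ) (b : B)
    (p : MvPolynomial (Fin n) ℂ) : Prop :=
  ∃ s : B, χ₀ s ≠ 0 ∧ s * (b - aeval (tt G w₀) p) ∈ II G w₀ ^ k

theorem Rel.mono {χ₀ : Pt B} {k k' : ℕ} (h : k ≤ k') {b : B} {p : MvPolynomial (Fin n) ℂ}
    (hr : Rel G w₀ χ₀ k' b p) : Rel G w₀ χ₀ k b p := by
  obtain ⟨s, hs, h1⟩ := hr
  exact ⟨s, hs, Ideal.pow_le_pow_right h h1⟩

theorem Rel.add {χ₀ : Pt B} {k : ℕ} {b b' : B} {p p' : MvPolynomial (Fin n) ℂ}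
    (h : Rel G w₀ χ₀ k b p) (h' : Rel G w₀ χ₀ k b' p') : Rel G w₀ χ₀ k (b + b') (p + p') := by
  obtain ⟨s, hs, h1⟩ := h
  obtain ⟨s', hs', h1'⟩ := h'
  refine ⟨s * s', by rw [map_mul]; exact mul_ne_zero hs hs', ?_⟩
  have e : s * s' * (b + b' - aeval (tt G w₀) (p + p')) =
      s' * (s * (b - aeval (tt G w₀) p)) + s * (s' * (b' - aeval (tt G w₀) p')) := by
    rw [map_add]
    ring
  rw [e]
  exact Ideal.add_mem _ (Ideal.mul_mem_left _ _ h1) (Ideal.mul_mem_left _ _ h1')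

theorem Rel.mul {χ₀ : Pt B} {k : ℕ} {b b' : B} {p p' : MvPolynomial (Fin n) ℂ}
    (h : Rel G w₀ χ₀ k b p) (h' : Rel G w₀ χ₀ k b' p') : Rel G w₀ χ₀ k (b * b') (p * p') := by
  obtain ⟨s, hs, h1⟩ := h
  obtain ⟨s', hs', h1'⟩ := h'
  refine ⟨s * s', by rw [map_mul]; exact mul_ne_zero hs hs', ?_⟩
  have e : s * s' * (b * b' - aeval (tt G w₀) (p * p')) =
      s' * b' * (s * (b - aeval (tt G w₀) p)) +
        s * aeval (tt G w₀) p * (s' * (b' - aeval (tt G w₀) p')) := by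
    rw [map_mul]
    ring
  rw [e]
  exact Ideal.add_mem _ (Ideal.mul_mem_left _ _ h1) (Ideal.mul_mem_left _ _ h1')

theorem Rel.self {χ₀ : Pt B} (k : ℕ) (p : MvPolynomial (Fin n) ℂ) :
    Rel G w₀ χ₀ k (aeval (tt G w₀) p) p :=
  ⟨1, by rw [map_one]; exact one_ne_zero, by simp⟩

/-! ### uniqueness -/

/-- the translation `X_j ↦ X_j + w₀ j` -/
noncomputable def sh (w₀ : Fin n → ℂ) : MvPolynomial (Fin n) ℂ →ₐ[ℂ] MvPolynomial (Fin n) ℂ :=
  aeval fun j => X j + C (w₀ j)

/-- the translation `X_j ↦ X_j - w₀ j` -/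
noncomputable def sh' (w₀ : Fin n → ℂ) : MvPolynomial (Fin n) ℂ →ₐ[ℂ] MvPolynomial (Fin n) ℂ :=
  aeval fun j => X j - C (w₀ j)

theorem sh_sh' (p : MvPolynomial (Fin n) ℂ) : sh w₀ (sh' w₀ p) = p := by
  have h : (sh w₀).comp (sh' w₀) = AlgHom.id ℂ _ := by
    apply MvPolynomial.algHom_ext
    intro j
    simp only [sh, sh', AlgHom.comp_apply, aeval_X, map_sub, AlgHom.id_apply]
    rw [← MvPolynomial.algebraMap_eq, AlgHom.commutes]
    simp
  exact congrArg (fun f => f p) h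

theorem sh'_sh (p : MvPolynomial (Fin n) ℂ) : sh' w₀ (sh w₀ p) = p := by
  have h : (sh' w₀).comp (sh w₀) = AlgHom.id ℂ _ := by
    apply MvPolynomial.algHom_ext
    intro j
    simp only [sh, sh', AlgHom.comp_apply, aeval_X, map_add, AlgHom.id_apply]
    rw [← MvPolynomial.algebraMap_eq, AlgHom.commutes]
    simp
  exact congrArg (fun f => f p) h

theorem aeval_tt (p : MvPolynomial (Fin n) ℂ) : aeval (tt G w₀) p = aeval G.y (sh' w₀ p) := by
  have h : (aeval (tt G w₀) : MvPolynomial (Fin n) ℂ →ₐ[ℂ] B) = (aeval G.y).comp (sh' w₀) := by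
    apply MvPolynomial.algHom_ext
    intro j
    rw [AlgHom.comp_apply, sh', aeval_X, aeval_X, map_sub, aeval_X, aeval_C]
    rfl
  exact congrArg (fun f => f p) h

theorem coeff_zero_sh (p : MvPolynomial (Fin n) ℂ) : coeff 0 (sh w₀ p) = eval w₀ p := by
  rw [← MvPolynomial.constantCoeff_eq]
  have h : (constantCoeff : MvPolynomial (Fin n) ℂ →+* ℂ).comp (sh w₀).toRingHom =
      (eval w₀) := by
    apply MvPolynomial.ringHom_ext
    · intro r
      have h1 : (sh w₀) (C r) = C r := by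
        rw [← MvPolynomial.algebraMap_eq, AlgHom.commutes]
      simp only [RingHom.comp_apply, AlgHom.toRingHom_eq_coe, RingHom.coe_coe, h1]
      simp
    · intro j
      simp [sh]
  exact congrArg (fun f => f p) h

/-- the coordinates of the elements of a power of the ideal of the fibre -/
theorem cf_mem_pow {k : ℕ} {f : B} (hf : f ∈ II G w₀ ^ k) (i : Fin d) :
    sh w₀ (G.cf f i) ∈ idealOfVars (Fin n) ℂ ^ k := by
  have h1 : II G w₀ = (idealOfVars (Fin n) ℂ).map
      (aeval (tt G w₀) : MvPolynomial (Fin n) ℂ →ₐ[ℂ] B).toRingHom := by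
    rw [II, idealOfVars, Ideal.map_span]
    congr 1
    ext b
    constructor
    · rintro ⟨j, rfl⟩
      exact ⟨X j, ⟨j, rfl⟩, by simp⟩
    · rintro ⟨_, ⟨j, rfl⟩, rfl⟩
      exact ⟨j, by simp⟩
  rw [h1, ← Ideal.map_pow] at hf
  have key : ∀ b : B, sh w₀ (G.cf (b * f) i) ∈ idealOfVars (Fin n) ℂ ^ k := by
    refine Submodule.span_induction
      (p := fun f _ => ∀ b : B, sh w₀ (G.cf (b * f) i) ∈ idealOfVars (Fin n) ℂ ^ k)
      ?_ ?_ ?_ ?_ hf
    · rintro _ ⟨a, ha, rfl⟩ b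
      have e : b * (aeval (tt G w₀) : MvPolynomial (Fin n) ℂ →ₐ[ℂ] B).toRingHom a =
          aeval G.y (sh' w₀ a) * b := by
        rw [← aeval_tt, mul_comm]
        rfl
      rw [e, cf_mul, map_mul, sh_sh']
      exact Ideal.mul_mem_right _ _ ha
    · intro b
      rw [mul_zero, cf_zero, Pi.zero_apply, map_zero]
      exact Ideal.zero_mem _
    · intro x y _ _ hx hy b
      rw [mul_add, cf_add, Pi.add_apply, map_add]
      exact Ideal.add_mem _ (hx b) (hy b)
    · intro a x _ hx b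
      rw [smul_eq_mul, ← mul_assoc]
      exact hx (b * a)
  have h2 := key 1
  rwa [one_mul] at h2

/-- uniqueness of the Taylor coefficients -/
theorem coeff_eq_zero_of_rel (hw : eval w₀ G.D ≠ 0) {χ₀ : Pt B} (hχ₀ : proj G.y χ₀ = w₀) {k : ℕ}
    {p : MvPolynomial (Fin n) ℂ} {s : B} (hs : χ₀ s ≠ 0)
    (h : s * aeval (tt G w₀) p ∈ II G w₀ ^ k) (m : Fin n →₀ ℕ) (hm : m.degree < k) :
    coeff m p = 0 := by
  -- a coordinate of s does not vanish at w₀
  obtain ⟨i, hi⟩ : ∃ i, eval w₀ (G.cf s i) ≠ 0 := by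
    by_contra hcon
    push Not at hcon
    apply hs
    have h0 := map_eq_sum hχ₀ s
    rw [Finset.sum_eq_zero fun i _ => by rw [hcon i, zero_mul]] at h0
    exact (mul_eq_zero.1 h0).resolve_left hw
  set u : MvPolynomial (Fin n) ℂ := sh w₀ (G.cf s i) with hu
  have hu0 : coeff 0 u ≠ 0 := by rw [hu, coeff_zero_sh]; exact hi
  have h1 : p * u ∈ idealOfVars (Fin n) ℂ ^ k := by
    have h2 := cf_mem_pow h i
    rw [mul_comm s, aeval_tt, cf_mul, map_mul, sh_sh'] at h2
    exact h2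
  rw [mem_pow_idealOfVars_iff'] at h1
  -- strong induction on the degree
  induction hN : m.degree using Nat.strong_induction_on generalizing m with
  | _ N ih =>
    have h2 := h1 m hm
    rw [MvPolynomial.coeff_mul, Finset.sum_eq_single (m, 0)] at h2
    · exact (mul_eq_zero.1 h2).resolve_right hu0
    · rintro ⟨a, b⟩ hab hne
      rw [Finset.HasAntidiagonal.mem_antidiagonal] at hab
      simp only at hab ⊢
      have hb : b ≠ 0 := by
        rintro rfl
        apply hne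
        rw [← hab, add_zero]
      have hdeg : a.degree < m.degree := by
        rw [← hab, map_add]
        have : 0 < b.degree := by
          rw [Nat.pos_iff_ne_zero]
          intro h0
          exact hb ((Finsupp.degree_eq_zero_iff b).1 h0)
        omega
      rw [ih a.degree (by omega) a (by omega) rfl, zero_mul]
    · intro hnot
      exact absurd (by simp) hnot

theorem Rel.unique (hw : eval w₀ G.D ≠ 0) {χ₀ : Pt B} (hχ₀ : proj G.y χ₀ = w₀) {k : ℕ} {b : B}
    {p p' : MvPolynomial (Fin n) ℂ} (h : Rel G w₀ χ₀ k b p) (h' : Rel G w₀ χ₀ k b p')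
    (m : Fin n →₀ ℕ) (hm : m.degree < k) : coeff m p = coeff m p' := by
  obtain ⟨s, hs, h1⟩ := h
  obtain ⟨s', hs', h1'⟩ := h'
  have h2 : s * s' * aeval (tt G w₀) (p - p') ∈ II G w₀ ^ k := by
    have e : s * s' * aeval (tt G w₀) (p - p') =
        s * (s' * (b - aeval (tt G w₀) p')) - s' * (s * (b - aeval (tt G w₀) p)) := by
      rw [map_sub]
      ring
    rw [e]
    exact Ideal.sub_mem _ (Ideal.mul_mem_left _ _ h1') (Ideal.mul_mem_left _ _ h1)
  have h3 := coeff_eq_zero_of_rel hw hχ₀ (by rw [map_mul]; exact mul_ne_zero hs hs') h2 m hm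
  rwa [coeff_sub, sub_eq_zero] at h3

/-! ### existence -/

/-- `f ≡ s q(t)` to order `k + 1` -/
theorem exists_next (hw : eval w₀ G.D ≠ 0) {χ₀ : Pt B} (hχ₀ : proj G.y χ₀ = w₀) {s : B}
    (hs : χ₀ s ≠ 0) (k : ℕ) : ∀ f ∈ II G w₀ ^ k, ∃ (q : MvPolynomial (Fin n) ℂ) (s' : B),
      χ₀ s' ≠ 0 ∧ s' * (f - s * aeval (tt G w₀) q) ∈ II G w₀ ^ (k + 1) := by
  -- the predicate is additive
  have hadd : ∀ l : ℕ, ∀ f f' : B,
      (∃ (q : MvPolynomial (Fin n) ℂ) (s' : B),
        χ₀ s' ≠ 0 ∧ s' * (f - s * aeval (tt G w₀) q) ∈ II G w₀ ^ l) →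
      (∃ (q : MvPolynomial (Fin n) ℂ) (s' : B),
        χ₀ s' ≠ 0 ∧ s' * (f' - s * aeval (tt G w₀) q) ∈ II G w₀ ^ l) →
      (∃ (q : MvPolynomial (Fin n) ℂ) (s' : B),
        χ₀ s' ≠ 0 ∧ s' * (f + f' - s * aeval (tt G w₀) q) ∈ II G w₀ ^ l) := by
    rintro l f f' ⟨q, s₁, h1, h2⟩ ⟨q', s₂, h1', h2'⟩
    refine ⟨q + q', s₁ * s₂, by rw [map_mul]; exact mul_ne_zero h1 h1', ?_⟩
    have e : s₁ * s₂ * (f + f' - s * aeval (tt G w₀) (q + q')) =
        s₂ * (s₁ * (f - s * aeval (tt G w₀) q)) + s₁ * (s₂ * (f' - s * aeval (tt G w₀) q')) := by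
      rw [map_add]
      ring
    rw [e]
    exact Ideal.add_mem _ (Ideal.mul_mem_left _ _ h2) (Ideal.mul_mem_left _ _ h2')
  induction k with
  | zero =>
    intro f _
    obtain ⟨σ, hσ1, hσ⟩ := exists_sigma hw hχ₀
    refine ⟨C (χ₀ f / χ₀ s), σ, by rw [hσ1]; exact one_ne_zero, ?_⟩
    rw [zero_add, pow_one]
    apply hσ
    rw [map_sub, map_mul, aeval_C, AlgHom.commutes]
    simp only [Algebra.algebraMap_self, RingHom.id_apply]
    field_simp
    ring
  | succ k ih =>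
    intro f hf
    rw [pow_succ'] at hf
    refine Submodule.smul_induction_on (p := fun f => ∃ (q : MvPolynomial (Fin n) ℂ) (s' : B),
      χ₀ s' ≠ 0 ∧ s' * (f - s * aeval (tt G w₀) q) ∈ II G w₀ ^ (k + 1 + 1)) hf ?_
      (fun x y hx hy => hadd _ x y hx hy)
    intro a ha g hg
    rw [smul_eq_mul]
    -- induction on a in the span of the tt j
    revert g
    refine Submodule.span_induction (p := fun a _ => ∀ g ∈ II G w₀ ^ k,
      ∃ (q : MvPolynomial (Fin n) ℂ) (s' : B), χ₀ s' ≠ 0 ∧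
        s' * (a * g - s * aeval (tt G w₀) q) ∈ II G w₀ ^ (k + 1 + 1)) ?_ ?_ ?_ ?_ ha
    · rintro _ ⟨j, rfl⟩ g hg
      obtain ⟨q, s', h1, h2⟩ := ih g hg
      refine ⟨X j * q, s', h1, ?_⟩
      have e : s' * (tt G w₀ j * g - s * aeval (tt G w₀) (X j * q)) =
          tt G w₀ j * (s' * (g - s * aeval (tt G w₀) q)) := by
        rw [map_mul, aeval_X]
        ring
      rw [e, pow_succ']
      exact Ideal.mul_mem_mul (Ideal.subset_span ⟨j, rfl⟩) h2
    · intro g _
      exact ⟨0, 1, by rw [map_one]; exact one_ne_zero, by simp⟩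
    · intro x y _ _ hx hy g hg
      rw [add_mul]
      exact hadd _ _ _ (hx g hg) (hy g hg)
    · intro b x _ hx g hg
      have e : b • x * g = x * (b * g) := by
        rw [smul_eq_mul]
        ring
      rw [e]
      exact hx (b * g) (Ideal.mul_mem_left _ _ hg)

theorem exists_rel (hw : eval w₀ G.D ≠ 0) {χ₀ : Pt B} (hχ₀ : proj G.y χ₀ = w₀) (b : B) (k : ℕ) :
    ∃ p, Rel G w₀ χ₀ k b p := by
  induction k with
  | zero => exact ⟨0, 1, by rw [map_one]; exact one_ne_zero, by simp⟩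
  | succ k ih =>
    obtain ⟨p, s, hs, h1⟩ := ih
    obtain ⟨q, s', hs', h2⟩ := exists_next hw hχ₀ hs k _ h1
    refine ⟨p + q, s' * s, by rw [map_mul]; exact mul_ne_zero hs' hs, ?_⟩
    have e : s' * s * (b - aeval (tt G w₀) (p + q)) =
        s' * (s * (b - aeval (tt G w₀) p) - s * aeval (tt G w₀) q) := by
      rw [map_add]
      ring
    rw [e]
    exact h2

/-- **Taylor expansion** at a point over which the covering is unramified. -/
theorem exists_taylor (hw : eval w₀ G.D ≠ 0) {χ₀ : Pt B} (hχ₀ : proj G.y χ₀ = w₀) :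
    ∃ τ : B →ₐ[ℂ] MvPowerSeries (Fin n) ℂ,
      ∀ p : MvPolynomial (Fin n) ℂ, τ (aeval (tt G w₀) p) = (p : MvPowerSeries (Fin n) ℂ) := by
  choose P hP using fun (b : B) (k : ℕ) => exists_rel hw hχ₀ b k
  set T : B → MvPowerSeries (Fin n) ℂ := fun b m => coeff m (P b (m.degree + 1)) with hT
  have hTc : ∀ (b : B) (k : ℕ) (p : MvPolynomial (Fin n) ℂ), Rel G w₀ χ₀ k b p →
      ∀ m : Fin n →₀ ℕ, m.degree < k → MvPowerSeries.coeff m (T b) = coeff m p := by
    intro b k p hr m hm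
    have h1 : MvPowerSeries.coeff m (T b) = coeff m (P b (m.degree + 1)) := rfl
    rw [h1]
    exact Rel.unique hw hχ₀ (hP b (m.degree + 1)) (hr.mono (by omega)) m (by omega)
  have hTself : ∀ p : MvPolynomial (Fin n) ℂ,
      T (aeval (tt G w₀) p) = (p : MvPowerSeries (Fin n) ℂ) := by
    intro p
    ext m
    rw [hTc _ (m.degree + 1) p (Rel.self _ p) m (by omega), coeff_coe]
  have hadd : ∀ b b', T (b + b') = T b + T b' := by
    intro b b'
    ext m
    rw [map_add, hTc _ (m.degree + 1) _ ((hP b _).add (hP b' _)) m (by omega), coeff_add]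
    rfl
  have hmul : ∀ b b', T (b * b') = T b * T b' := by
    intro b b'
    ext m
    rw [hTc _ (m.degree + 1) _ ((hP b _).mul (hP b' _)) m (by omega), MvPolynomial.coeff_mul,
      MvPowerSeries.coeff_mul]
    refine Finset.sum_congr rfl fun x hx => ?_
    rw [Finset.HasAntidiagonal.mem_antidiagonal] at hx
    have h1 : x.1.degree ≤ m.degree := by rw [← hx, map_add]; omega
    have h2 : x.2.degree ≤ m.degree := by rw [← hx, map_add]; omega
    rw [hTc b (m.degree + 1) _ (hP b _) x.1 (by omega),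
      hTc b' (m.degree + 1) _ (hP b' _) x.2 (by omega)]
  have halg : ∀ c : ℂ, T (algebraMap ℂ B c) = algebraMap ℂ (MvPowerSeries (Fin n) ℂ) c := by
    intro c
    have h1 := hTself (C c)
    rw [aeval_C] at h1
    rw [h1, MvPolynomial.coe_C, MvPowerSeries.algebraMap_apply]
    rfl
  have h1 : T 1 = 1 := by
    have := halg 1
    rwa [map_one, map_one] at this
  have h0 : T 0 = 0 := by
    have := halg 0
    rwa [map_zero, map_zero] at this
  let f : B →+* MvPowerSeries (Fin n) ℂ :=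
    { toFun := T
      map_one' := h1
      map_mul' := hmul
      map_zero' := h0
      map_add' := hadd }
  exact ⟨AlgHom.mk f halg, hTself⟩

end

end Pool.Agent.Odp3.Fujita
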